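import Pool.Agent.R493.MS.Main

/-! The effective edge to the fourth order: final assembly. -/

set_option autoImplicit false
set_option linter.unusedSectionVars false

open scoped BigOperators ENNReal Topology
open MeasureTheory ProbabilityTheory Filter

namespace Pool.Agent.R493.MS

open Pool.Agent.H4R2.AE.Conc (PP QQ int_mp)
open Pool.Agent.Results.MP_1906c1_mp.ScaleAtEdge
open Pool.Agent.Y661.EX (coreG expG ca bco_two)
open Pool.Agent.Y661.ED (om)

/-- the unit cube -/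
def cube (d : ℕ) : Set (Fin d → ℝ) := Set.pi Set.univ fun _ : Fin d => Set.Icc (0 : ℝ) 1

theorem cube_meas (d : ℕ) : (volume : Measure (Fin d → ℝ)).restrict (cube d) = Un d := by
  unfold cube Un U
  rw [volume_pi, Measure.restrict_pi_pi]
  congr 1
  funext i
  exact Measure.restrict_congr_set Ioc_ae_eq_Icc.symm

theorem F0_eq {d : ℕ} (x y : Fin d → ℝ) : F0 x y = (lam x * lam y * lam (x + y))⁻¹ := by
  unfold F0
  rw [mul_inv, mul_inv]

theorem Sun_eq (d : ℕ) (hd : 4 ≤ d) : Sun d =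
    ∫ x in cube d, ∫ y in cube d, (lam x * lam y * lam (x + y))⁻¹ := by
  unfold Sun
  rw [integral_prod _ (F0_int hd), cube_meas]
  simp only [F0_eq]

theorem Sun_intOn (d : ℕ) (hd : 4 ≤ d) : IntegrableOn
    (fun z : (Fin d → ℝ) × (Fin d → ℝ) => (lam z.1 * lam z.2 * lam (z.1 + z.2))⁻¹)
    (cube d ×ˢ cube d) := by
  have h := F0_int (d := d) hd
  simp only [F0_eq] at h
  rw [← cube_meas, Measure.prod_restrict] at h
  exact h

theorem Sun_pos (d : ℕ) (hd : 4 ≤ d) : 0 < Sun d := by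
  have h0 : 0 ≤ Sun d := integral_nonneg fun z => F0_nonneg _ _
  rcases eq_or_lt_of_le h0 with h | h
  · exfalso
    unfold Sun at h
    have h1 := (integral_eq_zero_iff_of_nonneg
      (f := fun z : (Fin d → ℝ) × (Fin d → ℝ) => F0 z.1 z.2) (fun z => F0_nonneg _ _)
      (F0_int hd)).1 h.symm
    have h2 : ∀ᵐ _z ∂((Un d).prod (Un d)), False := by
      filter_upwards [h1, gen_ae (d := d)] with z hz hg
      have l1 := lam_pos (by omega) z.1 hg.1
      have l2 := lam_pos (by omega) z.2 hg.2.1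
      have l3 := lam_pos (by omega) (z.1 + z.2) hg.2.2
      have h3 : 0 < F0 z.1 z.2 := by
        unfold F0
        positivity
      simp only [Pi.zero_apply] at hz
      linarith
    have h3 : ((Un d).prod (Un d)) Set.univ = 1 := measure_univ
    simp only [eventually_false_iff_eq_bot, ae_eq_bot] at h2
    rw [h2] at h3
    simp at h3
  · exact h

theorem edge (d : ℕ) (hd : 4 ≤ d) (η : ℝ) (hη : 0 < η) (hη1 : η ≤ 1) :
    ∃ k K C : ℝ, 0 < k ∧ 0 < K ∧ ∀ σ : ℝ, 0 < σ → σ ≤ k → ∃ Es : ℝ,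
      |Es - (2 * d + Pool.Agent.Y661.ED.Gd d * σ ^ 2 + Sun d * σ ^ 4)| ≤ C * σ ^ 6 ∧
        (∃ A : Set ((Fin d → ℤ) → ℝ), MeasurableSet A ∧
          1 - Real.exp (-(k * sc d σ)) ≤
            (Measure.infinitePi fun _ : Fin d → ℤ => gaussianReal 0 1).real A ∧
          ∀ ξ ∈ A, ∀ κ : ℝ, Real.exp (-(k * sc d σ)) ≤ κ → κ ≤ 1 → ∀ E : ℝ, Es - κ ≤ |E| →
            SpreadOut σ ξ E (K * κ ^ ((d : ℝ) / 2)) (Real.exp (k * sc d σ))) ∧
        (∀ (L : ℕ) [NeZero L], (L : ℝ) ≤ Real.exp (k * sc d σ) →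
          ∃ A : Set (T d L → ℝ), MeasurableSet A ∧
            1 - Real.exp (-(k * sc d σ)) ≤ (Measure.pi fun _ : T d L => gaussianReal 0 1).real A ∧
            ∀ ξ ∈ A, ∃ (E : ℝ) (ψ : T d L → ℝ), |E - Es| ≤ K / (L : ℝ) ^ 2 ∧
              (∀ x, 1 ≤ ψ x ∧ ψ x ≤ 1 + η) ∧ ∀ x, HT σ ξ ψ x = E * ψ x) ∧
        ∀ κ : ℝ, Real.exp (-(k * sc d σ)) ≤ κ → κ ≤ 1 →
          ∀ᵐ ξ ∂(Measure.infinitePi fun _ : Fin d → ℤ => gaussianReal 0 1),
            Localized (H σ ξ) {E | Es + κ ≤ |E|}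
              (k * Real.sqrt κ / Real.log (2 / (κ * σ))) := by
  obtain ⟨k, K, hk, hk1, hK, h⟩ := coreG d hd η hη hη1
  choose! Es h1 h2 h3 h4 using h
  obtain ⟨C, -, hC⟩ := expG d hd k K η hk hk1 hK.le (fun σ hσ hσk => ⟨Es σ, h3 σ hσ hσk⟩) 2
  refine ⟨k, K, C, hk, hK, fun σ hσ hσk => ⟨Es σ, ?_, h2 σ hσ hσk, ?_, h4 σ hσ hσk⟩⟩
  · have h5 := hC σ hσ hσk (Es σ) (h1 σ hσ hσk) (h3 σ hσ hσk)
    rw [Finset.sum_range_succ, Finset.sum_range_succ, Finset.sum_range_one, ca_two d hd] at h5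
    have e0 : ca d 0 = 2 * d := by simp [ca]
    have e1 : ca d 1 = Pool.Agent.Y661.ED.Gd d := by simp [ca, bco_two d hd]
    rw [e0, e1] at h5
    simpa using h5
  · intro L _ hL
    obtain ⟨G, hG, hP, hF⟩ := h3 σ hσ hσk L hL
    have hm : Measurable (fun (ξ : T d L → ℝ) y => -ξ y) := by fun_prop
    refine ⟨(fun ξ y => -ξ y) ⁻¹' G, hm hG, ?_, fun ξ hξ => ?_⟩
    · have e1 : (Measure.pi fun _ : T d L => gaussianReal 0 1).real ((fun ξ y => -ξ y) ⁻¹' G) =
          (Measure.pi fun _ : T d L => gaussianReal 0 1).real G := by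
        conv_rhs => rw [← lawT_neg d L]
        rw [map_measureReal_apply hm hG]
      rw [e1]
      exact hP
    · obtain ⟨E0, ψ, q1, q2, q3⟩ := hF _ hξ
      refine ⟨2 * d - E0, ψ, ?_, q2, fun x => ?_⟩
      · have e1 : 2 * (d : ℝ) - E0 - Es σ = -(E0 - (2 * d - Es σ)) := by ring
        rw [e1, abs_neg]
        exact q1
      · rw [HT_eq, q3 x]
        ring

end Pool.Agent.R493.MS
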