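import Mathlib

/-! Fourth mixed moments of iid standard variables and of linear forms. -/

set_option autoImplicit false

open scoped BigOperators
open MeasureTheory ProbabilityTheory

namespace Pool.Agent.R493.MS

variable {ι : Type} [Fintype ι] [DecidableEq ι]

/-- the multiplicity of `x` in the list `a, b, c, e` -/
def mul4 (a b c e x : ι) : ℕ :=
  (if x = a then 1 else 0) + (if x = b then 1 else 0) + (if x = c then 1 else 0) +
    (if x = e then 1 else 0)

theorem prod_mul4 (a b c e : ι) (V : ι → ℝ) : ∏ x, V x ^ mul4 a b c e x = V a * V b * V c * V e := by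
  unfold mul4
  simp only [pow_add, Finset.prod_mul_distrib]
  simp [pow_ite]

theorem moment4 (μ : Measure ℝ) [IsProbabilityMeasure μ] (a b c e : ι) :
    ∫ V : ι → ℝ, V a * V b * V c * V e ∂(Measure.pi fun _ => μ) =
      ∏ x, ∫ t, t ^ mul4 a b c e x ∂μ := by
  rw [← integral_fintype_prod_eq_prod (ι := ι) (fun x (t : ℝ) => t ^ mul4 a b c e x)]
  refine integral_congr_ae (Filter.Eventually.of_forall fun V => ?_)
  exact (prod_mul4 a b c e V).symm

/-- the moments of the law -/
structure Std (μ : Measure ℝ) : Prop where
  one : ∫ t, t ∂μ = 0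
  two : ∫ t, t ^ 2 ∂μ = 1
  four : ∫ t, t ^ 4 ∂μ = 3

variable (μ : Measure ℝ) [IsProbabilityMeasure μ]

def dl (a b : ι) : ℝ := if a = b then 1 else 0

theorem zero_of (hμ : Std μ) (a b c e x : ι) (h : mul4 a b c e x = 1) :
    ∏ x, ∫ t, t ^ mul4 a b c e x ∂μ = 0 := by
  refine Finset.prod_eq_zero (Finset.mem_univ x) ?_
  rw [h]
  simp only [pow_one]
  exact hμ.one

theorem m_zero : ∫ t : ℝ, t ^ 0 ∂μ = 1 := by simp

theorem two_pairs (hμ : Std μ) (a b c e x y : ι) (hxy : x ≠ y) (hx : mul4 a b c e x = 2)
    (hy : mul4 a b c e y = 2) (h : ∀ z, z ≠ x → z ≠ y → mul4 a b c e z = 0) :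
    ∏ x, ∫ t, t ^ mul4 a b c e x ∂μ = 1 := by
  rw [Finset.prod_eq_mul x y hxy]
  · rw [hx, hy, hμ.two, one_mul]
  · intro z _ hz
    rw [h z hz.1 hz.2, m_zero]
  · intro hh
    exact absurd (Finset.mem_univ _) hh
  · intro hh
    exact absurd (Finset.mem_univ _) hh

theorem wick4 (hμ : Std μ) (a b c e : ι) :
    ∫ V : ι → ℝ, V a * V b * V c * V e ∂(Measure.pi fun _ => μ) =
      dl a b * dl c e + dl a c * dl b e + dl a e * dl b c := by
  rw [moment4]
  unfold dl
  by_cases hab : a = b
  · subst hab
    by_cases hce : c = e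
    · subst hce
      by_cases hac : a = c
      · subst hac
        rw [Finset.prod_eq_single a]
        · have : mul4 a a a a a = 4 := by simp [mul4]
          rw [this, hμ.four]
          norm_num
        · intro z _ hz
          have : mul4 a a a a z = 0 := by simp [mul4, hz]
          rw [this, m_zero]
        · intro hh
          exact absurd (Finset.mem_univ _) hh
      · rw [two_pairs μ hμ a a c c a c hac (by simp [mul4, hac]) (by simp [mul4, Ne.symm hac])
          (by intro z h1 h2; simp [mul4, h1, h2])]
        simp [hac]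
    · by_cases hac : a = c
      · subst hac
        rw [zero_of μ hμ a a a e e (by simp [mul4, Ne.symm hce])]
        simp [hce]
      · rw [zero_of μ hμ a a c e c (by simp [mul4, Ne.symm hac, hce])]
        simp [hac, hce]
  · by_cases hac : a = c
    · subst hac
      by_cases hbe : b = e
      · subst hbe
        rw [two_pairs μ hμ a b a b a b hab (by simp [mul4, hab]) (by simp [mul4, Ne.symm hab])
          (by intro z h1 h2; simp [mul4, h1, h2])]
        simp [hab]
      · rw [zero_of μ hμ a b a e b (by simp [mul4, Ne.symm hab, hbe])]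
        simp [hab, hbe, Ne.symm hab]
    · by_cases hae : a = e
      · subst hae
        by_cases hbc : b = c
        · subst hbc
          rw [two_pairs μ hμ a b b a a b hab (by simp [mul4, hab]) (by simp [mul4, Ne.symm hab])
            (by intro z h1 h2; simp [mul4, h1, h2])]
          simp [hab]
        · rw [zero_of μ hμ a b c a b (by simp [mul4, Ne.symm hab, hbc])]
          simp [hab, hbc, hac]
      · rw [zero_of μ hμ a b c e a (by simp [mul4, hab, hac, hae])]
        simp [hab, hac, hae]

theorem mono_int (hμ : ∀ n : ℕ, Integrable (fun t : ℝ => t ^ n) μ) (a b c e : ι) :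
    Integrable (fun V : ι → ℝ => V a * V b * V c * V e) (Measure.pi fun _ => μ) := by
  have h := Integrable.fintype_prod (μ := fun _ : ι => μ)
    (f := fun x (t : ℝ) => t ^ mul4 a b c e x) (fun x => hμ _)
  refine h.congr (Filter.Eventually.of_forall fun V => ?_)
  exact prod_mul4 a b c e V

/-- a linear form -/
def lf (α : ι → ℝ) (V : ι → ℝ) : ℝ := ∑ a, α a * V a

/-- scalar product -/
def sp (α β : ι → ℝ) : ℝ := ∑ a, α a * β a

theorem lf_four (α β γ δ : ι → ℝ) (V : ι → ℝ) :
    lf α V * lf β V * lf γ V * lf δ V =
      ∑ a, ∑ b, ∑ c, ∑ e, (α a * β b * γ c * δ e) * (V a * V b * V c * V e) := by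
  unfold lf
  rw [Finset.sum_mul_sum, Finset.sum_mul, Finset.sum_mul]
  refine Finset.sum_congr rfl fun a _ => ?_
  rw [Finset.sum_mul, Finset.sum_mul]
  refine Finset.sum_congr rfl fun b _ => ?_
  rw [mul_assoc, Finset.sum_mul_sum, Finset.mul_sum]
  refine Finset.sum_congr rfl fun c _ => ?_
  rw [Finset.mul_sum]
  refine Finset.sum_congr rfl fun e _ => ?_
  ring

theorem lf_int (hi : ∀ n : ℕ, Integrable (fun t : ℝ => t ^ n) μ) (α β γ δ : ι → ℝ) :
    Integrable (fun V : ι → ℝ => lf α V * lf β V * lf γ V * lf δ V) (Measure.pi fun _ => μ) := by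
  simp only [lf_four]
  refine integrable_finsetSum _ fun a _ => integrable_finsetSum _ fun b _ =>
    integrable_finsetSum _ fun c _ => integrable_finsetSum _ fun e _ => ?_
  exact (mono_int μ hi a b c e).const_mul _

theorem lf_wick (hμ : Std μ) (hi : ∀ n : ℕ, Integrable (fun t : ℝ => t ^ n) μ)
    (α β γ δ : ι → ℝ) :
    ∫ V : ι → ℝ, lf α V * lf β V * lf γ V * lf δ V ∂(Measure.pi fun _ => μ) =
      sp α β * sp γ δ + sp α γ * sp β δ + sp α δ * sp β γ := by
  have hI : ∀ a b c e : ι, Integrable (fun V : ι → ℝ =>
      (α a * β b * γ c * δ e) * (V a * V b * V c * V e)) (Measure.pi fun _ => μ) := fun a b c e =>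
    (mono_int μ hi a b c e).const_mul _
  simp only [lf_four]
  rw [integral_finsetSum _ fun a _ => integrable_finsetSum _ fun b _ =>
    integrable_finsetSum _ fun c _ => integrable_finsetSum _ fun e _ => hI a b c e]
  have e1 : ∀ a : ι, ∫ V : ι → ℝ, ∑ b, ∑ c, ∑ e, (α a * β b * γ c * δ e) *
      (V a * V b * V c * V e) ∂(Measure.pi fun _ => μ) =
      ∑ b, ∑ c, ∑ e, (α a * β b * γ c * δ e) *
        (dl a b * dl c e + dl a c * dl b e + dl a e * dl b c) := by
    intro a
    rw [integral_finsetSum _ fun b _ => integrable_finsetSum _ fun c _ =>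
      integrable_finsetSum _ fun e _ => hI a b c e]
    refine Finset.sum_congr rfl fun b _ => ?_
    rw [integral_finsetSum _ fun c _ => integrable_finsetSum _ fun e _ => hI a b c e]
    refine Finset.sum_congr rfl fun c _ => ?_
    rw [integral_finsetSum _ fun e _ => hI a b c e]
    refine Finset.sum_congr rfl fun e _ => ?_
    rw [integral_const_mul, wick4 μ hμ]
  rw [Finset.sum_congr rfl fun a _ => e1 a]
  simp only [mul_add, Finset.sum_add_distrib]
  congr 1
  · congr 1
    · unfold sp dl
      rw [Finset.sum_mul_sum]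
      refine Finset.sum_congr rfl fun a _ => ?_
      rw [Finset.sum_eq_single a]
      · refine Finset.sum_congr rfl fun c _ => ?_
        rw [Finset.sum_eq_single c]
        · simp
          ring
        · intro e _ he
          rw [if_neg (Ne.symm he), mul_zero, mul_zero]
        · intro h
          exact absurd (Finset.mem_univ _) h
      · intro b _ hb
        simp [Ne.symm hb]
      · intro h
        exact absurd (Finset.mem_univ _) h
    · unfold sp dl
      rw [Finset.sum_mul_sum]
      refine Finset.sum_congr rfl fun a _ => ?_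
      refine Finset.sum_congr rfl fun b _ => ?_
      rw [Finset.sum_eq_single a]
      · rw [Finset.sum_eq_single b]
        · simp
          ring
        · intro e _ he
          rw [if_neg (Ne.symm he), mul_zero, mul_zero]
        · intro h
          exact absurd (Finset.mem_univ _) h
      · intro c _ hc
        simp [Ne.symm hc]
      · intro h
        exact absurd (Finset.mem_univ _) h
  · unfold sp dl
    rw [Finset.sum_mul_sum]
    refine Finset.sum_congr rfl fun a _ => ?_
    refine Finset.sum_congr rfl fun b _ => ?_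
    rw [Finset.sum_eq_single b]
    · rw [Finset.sum_eq_single a]
      · simp
        ring
      · intro e _ he
        rw [if_neg (Ne.symm he), zero_mul, mul_zero]
      · intro h
        exact absurd (Finset.mem_univ _) h
    · intro c _ hc
      simp [Ne.symm hc]
    · intro h
      exact absurd (Finset.mem_univ _) h

end Pool.Agent.R493.MS
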