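import Pool.Agent.Y661.EX.GauF
import Pool.Agent.R493.MS.Wick

/-! The mean of the fourth coefficient in a fixed volume. -/

set_option autoImplicit false
set_option linter.unusedSectionVars false

open scoped BigOperators
open MeasureTheory ProbabilityTheory

namespace Pool.Agent.R493.MS

open Pool.Agent.H4R2.AE (T)
open Pool.Agent.H4R2.AE.Conc (PP)
open Pool.Agent.Y661.EX

variable {d L : ℕ} [NeZero L]

theorem Gz_symm (z w : T d L) : Gz z w = Gz w z := by
  have h : Gz z w = Gr (fun x => if x = z then 1 else 0) w := rfl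
  rw [h, Gr_eq]
  simp

theorem Gz_shift (z w a : T d L) : Gz (z + a) (w + a) = Gz z w := by
  have h := congrFun (Gr_shift (fun x : T d L => if x = z + a then (1 : ℝ) else 0) a) w
  have e1 : (fun y : T d L => if y + a = z + a then (1 : ℝ) else 0) = fun y => if y = z then 1 else 0 := by
    funext y
    simp
  beta_reduce at h
  rw [e1] at h
  exact h.symm

theorem Gz_sum (z : T d L) : ∑ x, Gz z x = 0 := sum_Gr _

theorem Gz_diag (z : T d L) : Gz z z = Gz (0 : T d L) 0 := by
  have := Gz_shift (0 : T d L) 0 z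
  rwa [zero_add] at this

/-- the square of the kernel -/
noncomputable def Kz (x y : T d L) : ℝ := ∑ a, Gz x a * Gz y a

theorem Kz_shift (x y a : T d L) : Kz (x + a) (y + a) = Kz x y := by
  unfold Kz
  rw [← shift_add _ a]
  exact Finset.sum_congr rfl fun b _ => by rw [Gz_shift, Gz_shift]

theorem Kz_diag (z : T d L) : Kz z z = Kz (0 : T d L) 0 := by
  have := Kz_shift (0 : T d L) 0 z
  rwa [zero_add] at this

/-- the projection to the functions with mean zero -/
noncomputable def Cz (x y : T d L) : ℝ := (if x = y then 1 else 0) - 1 / NS d L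

theorem ns_inv : NS d L * (1 / NS d L) = 1 := by
  have := (NS_pos (d := d) (L := L)).ne'
  field_simp

theorem sp_CC (x y : T d L) : sp (Cz x) (Cz y) = Cz x y := by
  unfold sp Cz
  have h : ∀ a : T d L, ((if x = a then (1 : ℝ) else 0) - 1 / NS d L) *
      ((if y = a then (1 : ℝ) else 0) - 1 / NS d L) =
      (if x = a then (if y = x then (1 : ℝ) else 0) else 0) - 1 / NS d L * (if x = a then 1 else 0) -
        1 / NS d L * (if y = a then 1 else 0) + 1 / NS d L * (1 / NS d L) := by
    intro a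
    by_cases h1 : x = a
    · subst h1
      by_cases h2 : y = x
      · simp [h2]
        ring
      · simp [h2]
        ring
    · by_cases h2 : y = a
      · simp [h1, h2]
        ring
      · simp [h1, h2]
  rw [Finset.sum_congr rfl fun a _ => h a, Finset.sum_add_distrib, Finset.sum_sub_distrib,
    Finset.sum_sub_distrib, ← Finset.mul_sum, ← Finset.mul_sum, sum_const']
  simp only [Finset.sum_ite_eq, Finset.mem_univ, if_true]
  have := ns_inv (d := d) (L := L)
  rw [← mul_assoc, this]
  by_cases h2 : x = y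
  · simp [h2]
  · simp [h2, Ne.symm h2]

theorem sp_CG (x y : T d L) : sp (Cz x) (Gz y) = Gz x y := by
  unfold sp Cz
  simp only [sub_mul, Finset.sum_sub_distrib, ← Finset.mul_sum, Gz_sum, mul_zero, sub_zero]
  simp [Gz_symm]

theorem sp_GC (x y : T d L) : sp (Gz x) (Cz y) = Gz x y := by
  have h : sp (Gz x) (Cz y) = sp (Cz y) (Gz x) := by
    unfold sp
    exact Finset.sum_congr rfl fun a _ => mul_comm _ _
  rw [h, sp_CG, Gz_symm]

theorem sp_GG (x y : T d L) : sp (Gz x) (Gz y) = Kz x y := rfl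

theorem lf_C (V : T d L → ℝ) (x : T d L) : lf (Cz x) V = V x - av V := by
  unfold lf Cz av
  simp only [sub_mul, Finset.sum_sub_distrib, ← Finset.mul_sum]
  simp
  ring

theorem lf_G (V : T d L → ℝ) (x : T d L) : lf (Gz x) V = -phi V 1 x := by
  rw [phi_one, neg_neg]
  rfl

/-- the fourth coefficient through linear forms -/
theorem ep_four (V : T d L → ℝ) : NS d L * ep V 4 =
    -(∑ x, ∑ y, Gz x y * (lf (Cz x) V * lf (Gz x) V * lf (Cz y) V * lf (Gz y) V)) +
      1 / NS d L * ∑ x, ∑ y, lf (Cz x) V * lf (Gz x) V * lf (Gz y) V * lf (Gz y) V := by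
  have hN := (NS_pos (d := d) (L := L)).ne'
  have a0 : ∀ x, Al (phi V 1) x = -V x + ep V 1 := by
    intro x
    rw [al_phi, Finset.sum_range_one, phi_zero]
    simp only [zero_add, mul_one]
  have a1 : ∀ x, Al (phi V 2) x = -(V x * phi V 1 x) + ep V 1 * phi V 1 x + ep V 2 := by
    intro x
    rw [al_phi, Finset.sum_range_succ, Finset.sum_range_one, phi_zero]
    ring
  have a2 : ∀ x, Al (phi V 3) x = -(V x * phi V 2 x) + ep V 1 * phi V 2 x + ep V 2 * phi V 1 x +
      ep V 3 := by
    intro x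
    rw [al_phi, Finset.sum_range_succ, Finset.sum_range_succ, Finset.sum_range_one, phi_zero]
    ring
  have s1 : ∑ x, phi V 1 x = 0 := sum_phi V 0
  have s2 : ∑ x, phi V 2 x = 0 := sum_phi V 1
  have s3 : ∑ x, phi V 3 x = 0 := sum_phi V 2
  have e4 : NS d L * ep V 4 = ∑ x, V x * phi V 3 x := by
    show NS d L * av (fun y => V y * phi V 3 y) = _
    unfold av
    rw [mul_div_cancel₀ _ hN]
  have e2 : NS d L * ep V 2 = ∑ x, V x * phi V 1 x := by
    show NS d L * av (fun y => V y * phi V 1 y) = _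
    unfold av
    rw [mul_div_cancel₀ _ hN]
  have b1 : ∑ x, V x * phi V 3 x = -∑ x, phi V 1 x * Al (phi V 3) x := by
    rw [al_symm]
    have : ∀ x, phi V 3 x * Al (phi V 1) x = -(V x * phi V 3 x) + ep V 1 * phi V 3 x := by
      intro x
      rw [a0]
      ring
    rw [Finset.sum_congr rfl fun x _ => this x, Finset.sum_add_distrib, ← Finset.mul_sum, s3,
      mul_zero, add_zero, Finset.sum_neg_distrib, neg_neg]
  have b2 : ∑ x, phi V 1 x * Al (phi V 3) x = -∑ x, V x * phi V 1 x * phi V 2 x +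
      ep V 1 * ∑ x, phi V 1 x * phi V 2 x + ep V 2 * ∑ x, phi V 1 x ^ 2 := by
    have : ∀ x, phi V 1 x * Al (phi V 3) x = -(V x * phi V 1 x * phi V 2 x) +
        ep V 1 * (phi V 1 x * phi V 2 x) + ep V 2 * phi V 1 x ^ 2 + ep V 3 * phi V 1 x := by
      intro x
      rw [a2]
      ring
    rw [Finset.sum_congr rfl fun x _ => this x]
    simp only [Finset.sum_add_distrib, ← Finset.mul_sum, Finset.sum_neg_distrib, s1, mul_zero,
      add_zero]
  have b3 : ∑ x, phi V 2 x * Al (phi V 2) x = -∑ x, V x * phi V 1 x * phi V 2 x +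
      ep V 1 * ∑ x, phi V 1 x * phi V 2 x := by
    have : ∀ x, phi V 2 x * Al (phi V 2) x = -(V x * phi V 1 x * phi V 2 x) +
        ep V 1 * (phi V 1 x * phi V 2 x) + ep V 2 * phi V 2 x := by
      intro x
      rw [a1]
      ring
    rw [Finset.sum_congr rfl fun x _ => this x]
    simp only [Finset.sum_add_distrib, ← Finset.mul_sum, Finset.sum_neg_distrib, s2, mul_zero,
      add_zero]
  -- the quadratic form of the second corrector
  have hav : ep V 1 = av V := by
    show av (fun y => V y * phi V 0 y) = av V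
    congr 1
    funext y
    rw [phi_zero, mul_one]
  have w1 : ∀ x, lf (Cz x) V = V x - ep V 1 := fun x => by rw [lf_C, hav]
  have b4 : ∑ x, phi V 2 x * Al (phi V 2) x =
      ∑ x, ∑ y, Gz x y * (lf (Cz x) V * lf (Gz x) V * lf (Cz y) V * lf (Gz y) V) := by
    have p2 : ∀ x, phi V 2 x = ∑ y, Gz x y * (lf (Cz y) V * lf (Gz y) V) := by
      intro x
      rw [phi_succ, Gr_eq]
      refine Finset.sum_congr rfl fun y _ => ?_
      rw [w1, lf_G]
      simp only [Finset.univ_unique, Finset.sum_singleton, Fin.default_eq_zero, Fin.val_zero,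
        Nat.sub_zero, zero_add]
      ring
    have p3 : ∀ x, phi V 2 x * Al (phi V 2) x = (lf (Cz x) V * lf (Gz x) V) * phi V 2 x +
        ep V 2 * phi V 2 x := by
      intro x
      rw [a1, w1, lf_G]
      ring
    rw [Finset.sum_congr rfl fun x _ => p3 x, Finset.sum_add_distrib, ← Finset.mul_sum, s2,
      mul_zero, add_zero]
    refine Finset.sum_congr rfl fun x _ => ?_
    rw [p2, Finset.mul_sum]
    refine Finset.sum_congr rfl fun y _ => ?_
    ring
  have b5 : ∑ x, ∑ y, lf (Cz x) V * lf (Gz x) V * lf (Gz y) V * lf (Gz y) V =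
      -(NS d L * ep V 2) * ∑ x, phi V 1 x ^ 2 := by
    have p1 : ∑ x, lf (Cz x) V * lf (Gz x) V = -(NS d L * ep V 2) := by
      rw [e2, ← Finset.sum_neg_distrib]
      have : ∀ x, lf (Cz x) V * lf (Gz x) V = -(V x * phi V 1 x) + ep V 1 * phi V 1 x := by
        intro x
        rw [w1, lf_G]
        ring
      rw [Finset.sum_congr rfl fun x _ => this x, Finset.sum_add_distrib, ← Finset.mul_sum, s1,
        mul_zero, add_zero]
    rw [← p1, Finset.sum_mul_sum]
    refine Finset.sum_congr rfl fun x _ => ?_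
    refine Finset.sum_congr rfl fun y _ => ?_
    rw [lf_G V y]
    ring
  rw [b5, ← b4, b3, e4, b1, b2]
  field_simp
  ring

variable (μ : Measure ℝ) [IsProbabilityMeasure μ]

/-- the pointwise cubes of the kernel -/
noncomputable def S3 (d L : ℕ) [NeZero L] : ℝ := ∑ y : T d L, Gz (0 : T d L) y ^ 3

/-- the triple convolution at the origin -/
noncomputable def tau (d L : ℕ) [NeZero L] : ℝ := ∑ y : T d L, Gz (0 : T d L) y * Kz (0 : T d L) y

theorem sum_shift (f : T d L → T d L → ℝ) (h : ∀ x y a, f (x + a) (y + a) = f x y) :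
    ∑ x, ∑ y, f x y = NS d L * ∑ y, f 0 y := by
  have h1 : ∀ x : T d L, ∑ y, f x y = ∑ y, f 0 y := by
    intro x
    rw [← shift_add (fun y => f x y) x]
    refine Finset.sum_congr rfl fun y _ => ?_
    have := h 0 y x
    rwa [zero_add] at this
  rw [Finset.sum_congr rfl fun x _ => h1 x, sum_const']

/-- **the mean of the fourth coefficient in a fixed volume** -/
theorem mean_four (hμ : Std μ) (hi : ∀ n : ℕ, Integrable (fun t : ℝ => t ^ n) μ) :
    aL μ d L 4 = -S3 d L + 3 * tau d L / NS d L := by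
  have hN := (NS_pos (d := d) (L := L)).ne'
  have I1 : ∀ x y : T d L, Integrable (fun V : T d L → ℝ =>
      lf (Cz x) V * lf (Gz x) V * lf (Cz y) V * lf (Gz y) V) (PP (T d L) μ) := fun x y =>
    lf_int μ hi _ _ _ _
  have I2 : ∀ x y : T d L, Integrable (fun V : T d L → ℝ =>
      lf (Cz x) V * lf (Gz x) V * lf (Gz y) V * lf (Gz y) V) (PP (T d L) μ) := fun x y =>
    lf_int μ hi _ _ _ _
  have E1 : ∀ x y : T d L, ∫ V : T d L → ℝ,
      lf (Cz x) V * lf (Gz x) V * lf (Cz y) V * lf (Gz y) V ∂(PP (T d L) μ) =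
        Gz (0 : T d L) 0 * Gz (0 : T d L) 0 + Cz x y * Kz x y + Gz x y * Gz x y := by
    intro x y
    refine (lf_wick μ hμ hi _ _ _ _).trans ?_
    rw [sp_CG, sp_CG, sp_CC, sp_GG, sp_CG, sp_GC, Gz_diag x, Gz_diag y]
  have E2 : ∀ x y : T d L, ∫ V : T d L → ℝ,
      lf (Cz x) V * lf (Gz x) V * lf (Gz y) V * lf (Gz y) V ∂(PP (T d L) μ) =
        Gz (0 : T d L) 0 * Kz (0 : T d L) 0 + 2 * (Gz x y * Kz x y) := by
    intro x y
    refine (lf_wick μ hμ hi _ _ _ _).trans ?_
    rw [sp_CG, sp_CG, sp_GG, sp_GG, Gz_diag x, Kz_diag y]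
    ring
  have h0 : NS d L * aL μ d L 4 = ∫ V : T d L → ℝ, NS d L * ep V 4 ∂(PP (T d L) μ) := by
    rw [integral_const_mul]
    rfl
  have h1 : ∫ V : T d L → ℝ, NS d L * ep V 4 ∂(PP (T d L) μ) =
      -(∑ x : T d L, ∑ y : T d L, Gz x y * (Gz (0 : T d L) 0 * Gz (0 : T d L) 0 + Cz x y * Kz x y + Gz x y * Gz x y)) +
        1 / NS d L * ∑ x : T d L, ∑ y : T d L, (Gz (0 : T d L) 0 * Kz (0 : T d L) 0 + 2 * (Gz x y * Kz x y)) := by
    simp only [ep_four]
    rw [integral_add, integral_neg, integral_const_mul, integral_finsetSum, integral_finsetSum]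
    · congr 1
      · congr 1
        refine Finset.sum_congr rfl fun x _ => ?_
        rw [integral_finsetSum]
        · refine Finset.sum_congr rfl fun y _ => ?_
          rw [integral_const_mul, E1]
        · intro y _
          exact (I1 x y).const_mul _
      · congr 1
        refine Finset.sum_congr rfl fun x _ => ?_
        rw [integral_finsetSum]
        · exact Finset.sum_congr rfl fun y _ => E2 x y
        · intro y _
          exact I2 x y
    · intro x _
      exact integrable_finsetSum _ fun y _ => I2 x y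
    · intro x _
      exact integrable_finsetSum _ fun y _ => (I1 x y).const_mul _
    · exact (integrable_finsetSum _ fun x _ => integrable_finsetSum _ fun y _ =>
        (I1 x y).const_mul _).neg
    · exact (integrable_finsetSum _ fun x _ => integrable_finsetSum _ fun y _ => I2 x y).const_mul _
  have t1 : ∑ x : T d L, ∑ y : T d L, Gz x y * Kz x y = NS d L * tau d L :=
    sum_shift (fun x y => Gz x y * Kz x y) (fun x y a => by rw [Gz_shift, Kz_shift])
  have t2 : ∑ x : T d L, ∑ y : T d L, Gz x y ^ 3 = NS d L * S3 d L :=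
    sum_shift (fun x y => Gz x y ^ 3) (fun x y a => by rw [Gz_shift])
  have t3 : ∑ x : T d L, ∑ y : T d L, Gz x y * (Cz x y * Kz x y) =
      NS d L * (Gz (0 : T d L) 0 * Kz (0 : T d L) 0) - tau d L := by
    have : ∀ x y : T d L, Gz x y * (Cz x y * Kz x y) =
        (if x = y then Gz (0 : T d L) 0 * Kz (0 : T d L) 0 else 0) - 1 / NS d L * (Gz x y * Kz x y) := by
      intro x y
      unfold Cz
      by_cases h : x = y
      · subst h
        rw [if_pos rfl, if_pos rfl, Gz_diag, Kz_diag]
        ring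
      · rw [if_neg h, if_neg h]
        ring
    simp only [this, Finset.sum_sub_distrib, ← Finset.mul_sum, t1, Finset.sum_ite_eq,
      Finset.mem_univ, if_true, sum_const']
    field_simp
  have t4 : ∑ x : T d L, ∑ y : T d L, Gz x y = 0 := by
    simp only [Gz_sum, Finset.sum_const_zero]
  have r1 : ∑ x : T d L, ∑ y : T d L,
      Gz x y * (Gz (0 : T d L) 0 * Gz (0 : T d L) 0 + Cz x y * Kz x y + Gz x y * Gz x y) =
      NS d L * (Gz (0 : T d L) 0 * Kz (0 : T d L) 0) - tau d L + NS d L * S3 d L := by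
    have : ∀ x y : T d L, Gz x y * (Gz (0 : T d L) 0 * Gz (0 : T d L) 0 + Cz x y * Kz x y + Gz x y * Gz x y) =
        (Gz (0 : T d L) 0 * Gz (0 : T d L) 0) * Gz x y + Gz x y * (Cz x y * Kz x y) + Gz x y ^ 3 := by
      intro x y
      ring
    simp only [this, Finset.sum_add_distrib, ← Finset.mul_sum]
    rw [t4, t3, t2]
    ring
  have r2 : ∑ x : T d L, ∑ y : T d L, (Gz (0 : T d L) 0 * Kz (0 : T d L) 0 + 2 * (Gz x y * Kz x y)) =
      NS d L * (NS d L * (Gz (0 : T d L) 0 * Kz (0 : T d L) 0)) + 2 * (NS d L * tau d L) := by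
    simp only [Finset.sum_add_distrib, ← Finset.mul_sum, t1, sum_const']
    ring
  rw [h1, r1, r2] at h0
  have h2 : NS d L * aL μ d L 4 = NS d L * (-S3 d L + 3 * tau d L / NS d L) := by
    rw [h0]
    field_simp
    ring
  exact mul_left_cancel₀ hN h2

end Pool.Agent.R493.MS
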