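import Pool.Agent.Y661.ED.Heat

/-! Integrability of the sunset integrand in dimension at least four. -/

set_option autoImplicit false
set_option linter.unusedSectionVars false

open scoped BigOperators Topology
open MeasureTheory Set Filter

namespace Pool.Agent.R493.MS

open Pool.Agent.Y661.ED (om om_cont om_nonneg om_le om_eq om_lower)

theorem om_per : Function.Periodic om 1 := by
  intro x
  unfold om
  have : 2 * Real.pi * (x + 1) = 2 * Real.pi * x + 2 * Real.pi := by ring
  rw [this, Real.cos_add_two_pi]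

/-- the uniform law on the unit interval -/
noncomputable def U : Measure ℝ := volume.restrict (Ioc (0 : ℝ) 1)

instance : IsProbabilityMeasure U := by
  constructor
  unfold U
  rw [Measure.restrict_apply_univ, Real.volume_Ioc]
  simp

/-- the auxiliary function -/
noncomputable def rr (x : ℝ) : ℝ := om x ^ (-(3 / 8) : ℝ)

theorem rr_meas : Measurable rr := by
  unfold rr
  exact om_cont.measurable.pow_const _

theorem rr_nonneg (x : ℝ) : 0 ≤ rr x := Real.rpow_nonneg (om_nonneg x) _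

theorem rr_per : Function.Periodic rr 1 := by
  intro x
  unfold rr
  rw [om_per x]

theorem rr_le (x : ℝ) (h0 : 0 < x) (h1 : x < 1) :
    rr x ≤ x ^ (-(3 / 4) : ℝ) + (1 - x) ^ (-(3 / 4) : ℝ) := by
  have h2 : 0 < 1 - x := by linarith
  have p1 : 0 ≤ x ^ (-(3 / 4) : ℝ) := Real.rpow_nonneg h0.le _
  have p2 : 0 ≤ (1 - x) ^ (-(3 / 4) : ℝ) := Real.rpow_nonneg h2.le _
  have key : ∀ y : ℝ, 0 < y → 16 * y ^ 2 ≤ om x → rr x ≤ y ^ (-(3 / 4) : ℝ) := by
    intro y hy h
    unfold rr
    have h3 : y ^ 2 ≤ om x := by nlinarith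
    have h4 := Real.rpow_le_rpow_of_nonpos (z := -(3 / 8)) (by positivity) h3 (by norm_num)
    refine h4.trans (le_of_eq ?_)
    rw [← Real.rpow_natCast, ← Real.rpow_mul hy.le]
    norm_num
  rcases om_lower x h0.le h1.le with h | h
  · linarith [key x h0 h]
  · linarith [key (1 - x) h2 h]

theorem rr_int01 : IntervalIntegrable rr volume 0 1 := by
  have a1 : IntervalIntegrable (fun x : ℝ => x ^ (-(3 / 4) : ℝ)) volume 0 1 :=
    intervalIntegral.intervalIntegrable_rpow' (by norm_num)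
  have a2 : IntervalIntegrable (fun x : ℝ => (1 - x) ^ (-(3 / 4) : ℝ)) volume 0 1 := by
    have := a1.comp_sub_left 1
    simpa using this.symm
  have a3 := a1.add a2
  refine IntervalIntegrable.mono_fun a3 rr_meas.aestronglyMeasurable ?_
  rw [uIoc_of_le zero_le_one]
  have : ∀ᵐ x ∂(volume.restrict (Ioc (0 : ℝ) 1)), x ≠ 1 := by
    rw [ae_restrict_iff' measurableSet_Ioc]
    have := (Set.finite_singleton (1 : ℝ)).countable.ae_notMem volume
    filter_upwards [this] with x hx _ h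
    exact hx (by simp [h])
  filter_upwards [this, ae_restrict_mem measurableSet_Ioc] with x hx hx2
  have h1 : x < 1 := lt_of_le_of_ne hx2.2 hx
  have h2 := rr_le x hx2.1 h1
  have p1 : 0 ≤ x ^ (-(3 / 4) : ℝ) := Real.rpow_nonneg hx2.1.le _
  have p2 : 0 ≤ (1 - x) ^ (-(3 / 4) : ℝ) := Real.rpow_nonneg (by linarith) _
  rw [Real.norm_eq_abs, Real.norm_eq_abs, abs_of_nonneg (rr_nonneg x),
    abs_of_nonneg (add_nonneg p1 p2)]
  exact h2

theorem rr_shift_int (a : ℝ) : IntervalIntegrable (fun b => rr (a + b)) volume 0 1 := by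
  have h1 := rr_per.intervalIntegrable₀ one_ne_zero rr_int01 a (a + 1)
  have h2 := h1.comp_add_left a
  simpa using h2

theorem rr_shift_eq (a : ℝ) : ∫ b in (0 : ℝ)..1, rr (a + b) = ∫ b in (0 : ℝ)..1, rr b := by
  rw [intervalIntegral.integral_comp_add_left rr a]
  have := rr_per.intervalIntegral_add_eq a 0
  rw [add_zero]
  rw [zero_add] at this
  exact this

theorem rr_U : Integrable rr U := by
  have := (intervalIntegrable_iff_integrableOn_Ioc_of_le zero_le_one).1 rr_int01
  exact this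

theorem rr_shift_U (a : ℝ) : Integrable (fun b => rr (a + b)) U := by
  have := (intervalIntegrable_iff_integrableOn_Ioc_of_le zero_le_one).1 (rr_shift_int a)
  exact this

theorem rr_shift_U_eq (a : ℝ) : ∫ b, rr (a + b) ∂U = ∫ b, rr b ∂U := by
  have := rr_shift_eq a
  rw [intervalIntegral.integral_of_le zero_le_one, intervalIntegral.integral_of_le zero_le_one] at this
  exact this

/-- the majorant of the one-dimensional factor -/
noncomputable def h3 (a b : ℝ) : ℝ := rr a * rr b + rr a * rr (a + b) + rr b * rr (a + b)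

theorem h3_nonneg (a b : ℝ) : 0 ≤ h3 a b := by
  unfold h3
  have := rr_nonneg a
  have := rr_nonneg b
  have := rr_nonneg (a + b)
  positivity

theorem h3_meas : Measurable fun z : ℝ × ℝ => h3 z.1 z.2 := by
  unfold h3
  have := rr_meas
  fun_prop

theorem pair_int : Integrable (fun z : ℝ × ℝ => rr z.1 * rr (z.1 + z.2)) (U.prod U) := by
  have hm : Measurable (fun z : ℝ × ℝ => rr z.1 * rr (z.1 + z.2)) := by
    have := rr_meas
    fun_prop
  rw [integrable_prod_iff hm.aestronglyMeasurable]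
  refine ⟨Eventually.of_forall fun a => ?_, ?_⟩
  · show Integrable (fun b => rr a * rr (a + b)) U
    exact (rr_shift_U a).const_mul _
  have : (fun a : ℝ => ∫ b, ‖rr a * rr (a + b)‖ ∂U) = fun a => rr a * ∫ b, rr b ∂U := by
    funext a
    have h1 : ∀ b, ‖rr a * rr (a + b)‖ = rr a * rr (a + b) := fun b => by
      rw [Real.norm_eq_abs, abs_of_nonneg (mul_nonneg (rr_nonneg _) (rr_nonneg _))]
    simp only [h1]
    rw [integral_const_mul, rr_shift_U_eq]
  rw [this]
  exact rr_U.mul_const _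

theorem h3_int : Integrable (fun z : ℝ × ℝ => h3 z.1 z.2) (U.prod U) := by
  have a1 : Integrable (fun z : ℝ × ℝ => rr z.1 * rr z.2) (U.prod U) := rr_U.mul_prod rr_U
  have a3 : Integrable (fun z : ℝ × ℝ => rr z.2 * rr (z.1 + z.2)) (U.prod U) := by
    have := pair_int.swap
    refine this.congr (Eventually.of_forall fun z => ?_)
    simp only [Function.comp, Prod.fst_swap, Prod.snd_swap]
    rw [add_comm]
  exact (a1.add pair_int).add a3

theorem key1 (A B C e : ℝ) (hA : 0 < A) (hB : 0 < B) (hC : 0 < C) (hA4 : A ≤ 4) (hB4 : B ≤ 4)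
    (hAC : A ≤ C) (hBC : B ≤ C) (he : -(1 / 4) ≤ e) (he0 : e ≤ 0) :
    A ^ e * B ^ e * C ^ e ≤ 16 * (A ^ (-(3 / 8) : ℝ) * B ^ (-(3 / 8) : ℝ)) := by
  obtain ⟨t, ht⟩ : ∃ t, t = A * B := ⟨_, rfl⟩
  have ht0 : 0 < t := by rw [ht]; positivity
  have ht16 : t ≤ 16 := by rw [ht]; nlinarith
  have h1 : A ^ e * B ^ e = t ^ e := by rw [ht, Real.mul_rpow hA.le hB.le]
  have h2 : A ^ (-(3 / 8) : ℝ) * B ^ (-(3 / 8) : ℝ) = t ^ (-(3 / 8) : ℝ) := by
    rw [ht, Real.mul_rpow hA.le hB.le]
  have h3 : C ^ e ≤ t ^ (e / 2) := by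
    have a1 : t ≤ C ^ 2 := by rw [ht]; nlinarith
    have a2 := Real.rpow_le_rpow_of_nonpos (z := e / 2) ht0 a1 (by linarith)
    refine le_trans (le_of_eq ?_) a2
    rw [← Real.rpow_natCast, ← Real.rpow_mul hC.le]
    congr 1
    push_cast
    ring
  rw [h1, h2]
  calc t ^ e * C ^ e ≤ t ^ e * t ^ (e / 2) := by
        apply mul_le_mul_of_nonneg_left h3 (Real.rpow_nonneg ht0.le _)
    _ = t ^ (3 / 2 * e + 3 / 8) * t ^ (-(3 / 8) : ℝ) := by
        rw [← Real.rpow_add ht0, ← Real.rpow_add ht0]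
        congr 1
        ring
    _ ≤ 16 * t ^ (-(3 / 8) : ℝ) := by
        apply mul_le_mul_of_nonneg_right _ (Real.rpow_nonneg ht0.le _)
        calc t ^ (3 / 2 * e + 3 / 8) ≤ 16 ^ (3 / 2 * e + 3 / 8) :=
              Real.rpow_le_rpow ht0.le ht16 (by linarith)
          _ ≤ 16 ^ (1 : ℝ) := Real.rpow_le_rpow_of_exponent_le (by norm_num) (by linarith)
          _ = 16 := Real.rpow_one _

theorem key3 (a b e : ℝ) (ha : 0 < om a) (hb : 0 < om b) (hc : 0 < om (a + b))
    (he : -(1 / 4) ≤ e) (he0 : e ≤ 0) :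
    om a ^ e * om b ^ e * om (a + b) ^ e ≤ 16 * h3 a b := by
  have p1 := mul_nonneg (rr_nonneg a) (rr_nonneg b)
  have p2 := mul_nonneg (rr_nonneg a) (rr_nonneg (a + b))
  have p3 := mul_nonneg (rr_nonneg b) (rr_nonneg (a + b))
  have e3 : h3 a b = rr a * rr b + rr a * rr (a + b) + rr b * rr (a + b) := rfl
  rw [e3]
  have hA4 := om_le a
  have hB4 := om_le b
  have hC4 := om_le (a + b)
  rcases le_total (om a) (om (a + b)) with h1 | h1
  · rcases le_total (om b) (om (a + b)) with h2 | h2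
    · have := key1 (om a) (om b) (om (a + b)) e ha hb hc hA4 hB4 h1 h2 he he0
      unfold rr at *
      linarith
    · have := key1 (om a) (om (a + b)) (om b) e ha hc hb hA4 hC4 (h1.trans h2) h2 he he0
      unfold rr at *
      have e1 : om a ^ e * om b ^ e * om (a + b) ^ e = om a ^ e * om (a + b) ^ e * om b ^ e := by
        ring
      linarith
  · rcases le_total (om b) (om a) with h2 | h2
    · have := key1 (om b) (om (a + b)) (om a) e hb hc ha hB4 hC4 h2 h1 he he0
      unfold rr at *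
      have e1 : om a ^ e * om b ^ e * om (a + b) ^ e = om b ^ e * om (a + b) ^ e * om a ^ e := by
        ring
      linarith
    · have := key1 (om a) (om (a + b)) (om b) e ha hc hb hA4 hC4 h2 (h1.trans h2) he he0
      unfold rr at *
      have e1 : om a ^ e * om b ^ e * om (a + b) ^ e = om a ^ e * om (a + b) ^ e * om b ^ e := by
        ring
      linarith

variable {d : ℕ}

/-- the symbol of the Laplacian -/
noncomputable def lam (x : Fin d → ℝ) : ℝ := ∑ i, om (x i)

theorem lam_nonneg (x : Fin d → ℝ) : 0 ≤ lam x := Finset.sum_nonneg fun _ _ => om_nonneg _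

theorem lam_cont : Continuous (lam (d := d)) := by
  unfold lam
  have := om_cont
  fun_prop

theorem lam_pos (hd : 0 < d) (x : Fin d → ℝ) (h : ∀ i, 0 < om (x i)) : 0 < lam x := by
  have : Nonempty (Fin d) := ⟨⟨0, hd⟩⟩
  exact Finset.sum_pos (fun i _ => h i) Finset.univ_nonempty

theorem lam_inv_le (hd : 0 < d) (x : Fin d → ℝ) (h : ∀ i, 0 < om (x i)) :
    (lam x)⁻¹ ≤ ∏ i, om (x i) ^ (-(1 / (d : ℝ))) := by
  have hS := lam_pos hd x h
  have hd0 : (0 : ℝ) < d := by exact_mod_cast hd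
  have h1 : ∀ i, (lam x) ^ (-(1 / (d : ℝ))) ≤ om (x i) ^ (-(1 / (d : ℝ))) := by
    intro i
    apply Real.rpow_le_rpow_of_nonpos (h i)
    · exact Finset.single_le_sum (f := fun i => om (x i)) (fun i _ => om_nonneg _)
        (Finset.mem_univ i)
    · have : 0 < 1 / (d : ℝ) := by positivity
      linarith
  have h2 : ∏ _i : Fin d, (lam x) ^ (-(1 / (d : ℝ))) ≤ ∏ i, om (x i) ^ (-(1 / (d : ℝ))) :=
    Finset.prod_le_prod (fun i _ => Real.rpow_nonneg hS.le _) fun i _ => h1 i
  refine le_trans (le_of_eq ?_) h2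
  rw [Finset.prod_const, Finset.card_univ, Fintype.card_fin, ← Real.rpow_natCast,
    ← Real.rpow_mul hS.le]
  have : -(1 / (d : ℝ)) * (d : ℝ) = -1 := by
    field_simp
  rw [this, Real.rpow_neg_one]

/-- the sunset integrand -/
noncomputable def F0 (x y : Fin d → ℝ) : ℝ := (lam x)⁻¹ * (lam y)⁻¹ * (lam (x + y))⁻¹

theorem F0_nonneg (x y : Fin d → ℝ) : 0 ≤ F0 x y := by
  unfold F0
  have := lam_nonneg x
  have := lam_nonneg y
  have := lam_nonneg (x + y)
  positivity

theorem F0_meas : Measurable fun z : (Fin d → ℝ) × (Fin d → ℝ) => F0 z.1 z.2 := by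
  unfold F0
  have := (lam_cont (d := d)).measurable
  fun_prop

/-- all coordinates are generic -/
def Gen (x y : Fin d → ℝ) : Prop :=
  (∀ i, 0 < om (x i)) ∧ (∀ i, 0 < om (y i)) ∧ ∀ i, 0 < om (x i + y i)

theorem F0_le (hd : 4 ≤ d) (x y : Fin d → ℝ) (h : Gen x y) :
    F0 x y ≤ ∏ i, (16 * h3 (x i) (y i)) := by
  obtain ⟨h1, h2, h3'⟩ := h
  have hd1 : (4 : ℝ) ≤ d := by exact_mod_cast hd
  have hd0 : 0 < d := by omega
  have a1 := lam_inv_le hd0 x h1
  have a2 := lam_inv_le hd0 y h2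
  have a3 := lam_inv_le hd0 (x + y) h3'
  have p1 := inv_nonneg.2 (lam_nonneg x)
  have p2 := inv_nonneg.2 (lam_nonneg y)
  have p3 := inv_nonneg.2 (lam_nonneg (x + y))
  unfold F0
  calc (lam x)⁻¹ * (lam y)⁻¹ * (lam (x + y))⁻¹ ≤
        (∏ i, om (x i) ^ (-(1 / (d : ℝ)))) * (∏ i, om (y i) ^ (-(1 / (d : ℝ)))) *
          ∏ i, om ((x + y) i) ^ (-(1 / (d : ℝ))) := by
        have q1 : 0 ≤ ∏ i, om (x i) ^ (-(1 / (d : ℝ))) :=
          Finset.prod_nonneg fun i _ => Real.rpow_nonneg (om_nonneg _) _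
        have q2 : 0 ≤ ∏ i, om (y i) ^ (-(1 / (d : ℝ))) :=
          Finset.prod_nonneg fun i _ => Real.rpow_nonneg (om_nonneg _) _
        exact mul_le_mul (mul_le_mul a1 a2 p2 q1) a3 p3 (mul_nonneg q1 q2)
    _ = ∏ i, (om (x i) ^ (-(1 / (d : ℝ))) * om (y i) ^ (-(1 / (d : ℝ))) *
          om (x i + y i) ^ (-(1 / (d : ℝ)))) := by
        rw [Finset.prod_mul_distrib, Finset.prod_mul_distrib]
        rfl
    _ ≤ _ := by
        refine Finset.prod_le_prod (fun i _ => ?_) fun i _ => ?_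
        · have q1 := Real.rpow_nonneg (om_nonneg (x i)) (-(1 / (d : ℝ)))
          have q2 := Real.rpow_nonneg (om_nonneg (y i)) (-(1 / (d : ℝ)))
          have q3 := Real.rpow_nonneg (om_nonneg (x i + y i)) (-(1 / (d : ℝ)))
          positivity
        · apply key3 _ _ _ (h1 i) (h2 i) (h3' i)
          · have : 1 / (d : ℝ) ≤ 1 / 4 := one_div_le_one_div_of_le (by norm_num) hd1
            linarith
          · have : 0 < 1 / (d : ℝ) := by positivity
            linarith

/-- the uniform law on the unit cube -/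
noncomputable def Un (d : ℕ) : Measure (Fin d → ℝ) := Measure.pi fun _ : Fin d => U

instance : IsProbabilityMeasure (Un d) := by
  unfold Un
  infer_instance

theorem om_zero_count : {t : ℝ | om t = 0}.Countable := by
  refine (Set.countable_range (fun n : ℤ => (n : ℝ))).mono ?_
  intro t ht
  have h1 : om t = 0 := ht
  rw [om_eq] at h1
  have h2 : Real.sin (Real.pi * t) = 0 := by
    have : Real.sin (Real.pi * t) ^ 2 = 0 := by linarith
    exact pow_eq_zero_iff (two_ne_zero) |>.1 this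
  obtain ⟨n, hn⟩ := Real.sin_eq_zero_iff.1 h2
  refine ⟨n, ?_⟩
  have hpi := Real.pi_pos.ne'
  have h3 : Real.pi * (n : ℝ) = Real.pi * t := by rw [← hn]; ring
  exact mul_left_cancel₀ hpi h3

theorem om_ae (a : ℝ) : ∀ᵐ b ∂U, 0 < om (a + b) := by
  have h1 : {b : ℝ | om (a + b) = 0}.Countable :=
    om_zero_count.preimage (add_right_injective a)
  have h2 : ∀ᵐ b ∂(volume : Measure ℝ), b ∉ {b : ℝ | om (a + b) = 0} := h1.ae_notMem volume
  have h3 : ∀ᵐ b ∂U, b ∉ {b : ℝ | om (a + b) = 0} := ae_restrict_of_ae h2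
  filter_upwards [h3] with b hb
  exact lt_of_le_of_ne (om_nonneg _) fun h => hb h.symm

theorem eval_ae (i : Fin d) (p : ℝ → Prop) (h : ∀ᵐ b ∂U, p b) : ∀ᵐ y ∂(Un d), p (y i) :=
  (measurePreserving_eval (fun _ : Fin d => U) i).quasiMeasurePreserving.ae h

theorem gen_ae : ∀ᵐ z ∂((Un d).prod (Un d)), Gen z.1 z.2 := by
  have hm : MeasurableSet {z : (Fin d → ℝ) × (Fin d → ℝ) | Gen z.1 z.2} := by
    unfold Gen
    have := om_cont.measurable
    have m1 : MeasurableSet {z : (Fin d → ℝ) × (Fin d → ℝ) | ∀ i, 0 < om (z.1 i)} := by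
      rw [ofPred_forall]
      exact MeasurableSet.iInter fun i => measurableSet_lt measurable_const (by fun_prop)
    have m2 : MeasurableSet {z : (Fin d → ℝ) × (Fin d → ℝ) | ∀ i, 0 < om (z.2 i)} := by
      rw [ofPred_forall]
      exact MeasurableSet.iInter fun i => measurableSet_lt measurable_const (by fun_prop)
    have m3 : MeasurableSet {z : (Fin d → ℝ) × (Fin d → ℝ) | ∀ i, 0 < om (z.1 i + z.2 i)} := by
      rw [ofPred_forall]
      exact MeasurableSet.iInter fun i => measurableSet_lt measurable_const (by fun_prop)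
    exact m1.inter (m2.inter m3)
  have := (Measure.ae_prod_mem_iff_ae_ae_mem (μ := Un d) (ν := Un d) hm).2
  refine this ?_
  have h1 : ∀ᵐ x ∂(Un d), ∀ i, 0 < om (x i) := by
    rw [ae_all_iff]
    intro i
    have := om_ae 0
    simp only [zero_add] at this
    exact eval_ae i _ this
  filter_upwards [h1] with x hx
  have h2 : ∀ᵐ y ∂(Un d), ∀ i, 0 < om (x i + y i) := by
    rw [ae_all_iff]
    intro i
    exact eval_ae i (fun b => 0 < om (x i + b)) (om_ae (x i))
  filter_upwards [h1, h2] with y hy hxy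
  exact ⟨hx, hy, hxy⟩

theorem prod_int : Integrable (fun z : (Fin d → ℝ) × (Fin d → ℝ) => ∏ i, (16 * h3 (z.1 i) (z.2 i)))
    ((Un d).prod (Un d)) := by
  have hm : Measurable (fun z : (Fin d → ℝ) × (Fin d → ℝ) => ∏ i, (16 * h3 (z.1 i) (z.2 i))) := by
    refine Finset.measurable_prod _ fun i _ => ?_
    have h1 : Measurable fun z : (Fin d → ℝ) × (Fin d → ℝ) => (z.1 i, z.2 i) := by fun_prop
    exact (h3_meas.comp h1).const_mul 16
  rw [integrable_prod_iff hm.aestronglyMeasurable]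
  have hI : Integrable (fun z : ℝ × ℝ => 16 * h3 z.1 z.2) (U.prod U) := h3_int.const_mul 16
  obtain ⟨q1, q2⟩ := (integrable_prod_iff hI.1).1 hI
  constructor
  · have h1 : ∀ᵐ x ∂(Un d), ∀ i, Integrable (fun b => 16 * h3 (x i) b) U := by
      rw [ae_all_iff]
      intro i
      exact eval_ae i _ q1
    filter_upwards [h1] with x hx
    exact Integrable.fintype_prod (μ := fun _ : Fin d => U)
      (f := fun i b => 16 * h3 (x i) b) hx
  · have h2 : (fun x : Fin d → ℝ => ∫ y, ‖∏ i, (16 * h3 (x i) (y i))‖ ∂(Un d)) =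
        fun x => ∏ i, ∫ b, ‖16 * h3 (x i) b‖ ∂U := by
      funext x
      have e1 : ∀ y : Fin d → ℝ, ‖∏ i, (16 * h3 (x i) (y i))‖ = ∏ i, ‖16 * h3 (x i) (y i)‖ :=
        fun y => by rw [norm_prod]
      simp only [e1]
      exact integral_fintype_prod_eq_prod (μ := fun _ : Fin d => U)
        (fun i b => ‖16 * h3 (x i) b‖)
    rw [h2]
    exact Integrable.fintype_prod (μ := fun _ : Fin d => U)
      (f := fun _ a => ∫ b, ‖16 * h3 a b‖ ∂U) (fun _ => q2)

theorem F0_int (hd : 4 ≤ d) : Integrable (fun z : (Fin d → ℝ) × (Fin d → ℝ) => F0 z.1 z.2)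
    ((Un d).prod (Un d)) := by
  refine Integrable.mono' prod_int F0_meas.aestronglyMeasurable ?_
  filter_upwards [gen_ae (d := d)] with z hz
  rw [Real.norm_eq_abs, abs_of_nonneg (F0_nonneg _ _)]
  exact F0_le hd _ _ hz

end Pool.Agent.R493.MS
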