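import Pool.Agent.R493.MS.Fin
import Pool.Agent.R493.MS.Sun

/-! The kernel in Fourier variables. -/

set_option autoImplicit false
set_option linter.unusedSectionVars false

open scoped BigOperators ComplexConjugate

namespace Pool.Agent.R493.MS

open Pool.Agent.H4R2.AE (T)
open Pool.Agent.Y661.EX
open Pool.Agent.Y661.ED (om om_cont om_nonneg om_le om_eq om_lower)
open Pool.Agent.TH794.QD (char_re)

variable {d L : ℕ} [NeZero L]

/-- the characters of the torus -/
noncomputable def ch (p x : T d L) : ℂ := ∏ i, (ZMod.stdAddChar (p i * x i) : ℂ)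

theorem ch_comm (p x : T d L) : ch p x = ch x p := by
  unfold ch
  exact Finset.prod_congr rfl fun i _ => by rw [mul_comm]

theorem ch_add (p x y : T d L) : ch p (x + y) = ch p x * ch p y := by
  unfold ch
  rw [← Finset.prod_mul_distrib]
  refine Finset.prod_congr rfl fun i _ => ?_
  rw [Pi.add_apply, mul_add, AddChar.map_add_eq_mul]

theorem ch_add_left (p q x : T d L) : ch (p + q) x = ch p x * ch q x := by
  rw [ch_comm, ch_add, ch_comm x p, ch_comm x q]

theorem std_neg (a : ZMod L) : (ZMod.stdAddChar (-a) : ℂ) = conj (ZMod.stdAddChar a : ℂ) := by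
  rw [ZMod.stdAddChar_apply, ZMod.stdAddChar_apply, AddChar.map_neg_eq_inv,
    Circle.coe_inv_eq_conj]

theorem ch_neg (p x : T d L) : ch p (-x) = conj (ch p x) := by
  unfold ch
  rw [map_prod]
  refine Finset.prod_congr rfl fun i _ => ?_
  rw [Pi.neg_apply, mul_neg, std_neg]

theorem ch_neg_left (p x : T d L) : ch (-p) x = conj (ch p x) := by
  rw [ch_comm, ch_neg, ch_comm]

theorem ch_zero (p : T d L) : ch p 0 = 1 := by
  unfold ch
  simp

theorem ch_single (p : T d L) (i : Fin d) : ch p (Pi.single i 1) = ZMod.stdAddChar (p i) := by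
  unfold ch
  rw [Finset.prod_eq_single i]
  · rw [Pi.single_eq_same, mul_one]
  · intro j _ hj
    rw [Pi.single_eq_of_ne hj, mul_zero, AddChar.map_zero_eq_one]
  · intro h
    exact absurd (Finset.mem_univ i) h

theorem ch_sum (p : T d L) : ∑ x, ch p x = if p = 0 then (NS d L : ℂ) else 0 := by
  unfold ch
  have h1 : ∑ x : T d L, ∏ i, (ZMod.stdAddChar (p i * x i) : ℂ) =
      ∏ i, ∑ t : ZMod L, (ZMod.stdAddChar (p i * t) : ℂ) := by
    rw [Finset.prod_univ_sum]
    simp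
  have h2 : ∀ i, ∑ t : ZMod L, (ZMod.stdAddChar (p i * t) : ℂ) = if p i = 0 then (L : ℂ) else 0 := by
    intro i
    have := AddChar.sum_mulShift (p i) (ZMod.isPrimitive_stdAddChar L)
    rw [ZMod.card] at this
    simp only [mul_comm (p i)]
    rw [this]
    push_cast
    rfl
  rw [h1, Finset.prod_congr rfl fun i _ => h2 i]
  by_cases h : p = 0
  · subst h
    rw [if_pos rfl, NS_eq]
    simp
  · rw [if_neg h]
    obtain ⟨i, hi⟩ : ∃ i, p i ≠ 0 := by
      by_contra hcon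
      push Not at hcon
      exact h (funext hcon)
    exact Finset.prod_eq_zero (Finset.mem_univ i) (if_neg hi)

/-- the symbol of the Laplacian on the torus -/
noncomputable def lz (p : T d L) : ℝ := ∑ i, om (((p i).val : ℝ) / L)

theorem om_val (a : ZMod L) : om ((a.val : ℝ) / L) = 2 - 2 * (ZMod.stdAddChar a : ℂ).re := by
  rw [char_re]
  rfl

theorem lz_nonneg (p : T d L) : 0 ≤ lz p := Finset.sum_nonneg fun _ _ => om_nonneg _

theorem lz_zero : lz (0 : T d L) = 0 := by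
  unfold lz
  simp [om]

theorem lz_neg (p : T d L) : lz (-p) = lz p := by
  unfold lz
  refine Finset.sum_congr rfl fun i _ => ?_
  rw [om_val, om_val, Pi.neg_apply, std_neg, Complex.conj_re]

theorem om_low (a : ZMod L) (ha : a ≠ 0) : 16 / (L : ℝ) ^ 2 ≤ om ((a.val : ℝ) / L) := by
  have hL : (0 : ℝ) < L := L_pos'
  have h1 : 1 ≤ a.val := by
    rcases Nat.eq_zero_or_pos a.val with h | h
    · exact absurd ((ZMod.val_eq_zero a).1 h) ha
    · exact h
  have h2 : a.val + 1 ≤ L := ZMod.val_lt a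
  have h1' : (1 : ℝ) ≤ a.val := by exact_mod_cast h1
  have h2' : (a.val : ℝ) + 1 ≤ L := by exact_mod_cast h2
  have h3 : 1 / (L : ℝ) ≤ (a.val : ℝ) / L := by gcongr
  have h4 : 1 / (L : ℝ) ≤ 1 - (a.val : ℝ) / L := by
    rw [one_sub_div hL.ne']
    apply div_le_div_of_nonneg_right _ hL.le
    linarith
  have h0 : 0 ≤ 1 / (L : ℝ) := by positivity
  have e : 16 / (L : ℝ) ^ 2 = 16 * (1 / (L : ℝ)) ^ 2 := by
    field_simp
  rw [e]
  rcases om_lower ((a.val : ℝ) / L) (by positivity) (by linarith) with h | h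
  · refine le_trans ?_ h
    gcongr
  · refine le_trans ?_ h
    gcongr

theorem lz_low (p : T d L) (hp : p ≠ 0) : 16 / (L : ℝ) ^ 2 ≤ lz p := by
  obtain ⟨i, hi⟩ : ∃ i, p i ≠ 0 := by
    by_contra hcon
    push Not at hcon
    exact hp (funext hcon)
  exact (om_low (p i) hi).trans (Finset.single_le_sum (f := fun i => om (((p i).val : ℝ) / L))
    (fun i _ => om_nonneg _) (Finset.mem_univ i))

theorem lz_pos (p : T d L) (hp : p ≠ 0) : 0 < lz p := by
  have := lz_low p hp
  have hL : (0 : ℝ) < L := L_pos'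
  have : 0 < 16 / (L : ℝ) ^ 2 := by positivity
  linarith

/-- the kernel by its Fourier series -/
noncomputable def GC (x : T d L) : ℂ := ((NS d L : ℝ) : ℂ)⁻¹ * ∑ p : T d L, ((lz p)⁻¹ : ℝ) * ch p x

theorem GC_conj (x : T d L) : conj (GC x) = GC x := by
  unfold GC
  rw [map_mul, map_sum, map_inv₀, Complex.conj_ofReal]
  congr 1
  refine Fintype.sum_equiv (Equiv.neg _) _ _ fun p => ?_
  rw [map_mul, Complex.conj_ofReal, ← ch_neg_left]
  simp only [Equiv.neg_apply]
  rw [lz_neg]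

theorem lap_ch (p x : T d L) : ∑ i, (2 * ch p x - ch p (x - Pi.single i 1) -
    ch p (x + Pi.single i 1)) = (lz p : ℂ) * ch p x := by
  unfold lz
  rw [Complex.ofReal_sum, Finset.sum_mul]
  refine Finset.sum_congr rfl fun i _ => ?_
  rw [sub_eq_add_neg x, ch_add, ch_add, ch_neg, ch_single, om_val]
  have h : conj (ZMod.stdAddChar (p i) : ℂ) + (ZMod.stdAddChar (p i) : ℂ) =
      ((2 * (ZMod.stdAddChar (p i) : ℂ).re : ℝ) : ℂ) := by
    rw [add_comm, Complex.add_conj]
  push_cast at h ⊢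
  linear_combination (-ch p x) * h

theorem lap_GC (x : T d L) : ∑ i, (2 * GC x - GC (x - Pi.single i 1) - GC (x + Pi.single i 1)) =
    (((if x = 0 then 1 else 0) - 1 / NS d L : ℝ) : ℂ) := by
  have hN : (NS d L : ℂ) ≠ 0 := by exact_mod_cast (NS_pos (d := d) (L := L)).ne'
  have h1 : ∑ i, (2 * GC x - GC (x - Pi.single i 1) - GC (x + Pi.single i 1)) =
      ((NS d L : ℝ) : ℂ)⁻¹ * ∑ p : T d L, ((lz p)⁻¹ : ℝ) * ((lz p : ℂ) * ch p x) := by
    unfold GC
    have h2 : ∀ i : Fin d, 2 * (((NS d L : ℝ) : ℂ)⁻¹ * ∑ p : T d L, ((lz p)⁻¹ : ℝ) * ch p x) -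
        ((NS d L : ℝ) : ℂ)⁻¹ * ∑ p : T d L, ((lz p)⁻¹ : ℝ) * ch p (x - Pi.single i 1) -
        ((NS d L : ℝ) : ℂ)⁻¹ * ∑ p : T d L, ((lz p)⁻¹ : ℝ) * ch p (x + Pi.single i 1) =
        ((NS d L : ℝ) : ℂ)⁻¹ * ∑ p : T d L, ((lz p)⁻¹ : ℝ) * (2 * ch p x -
          ch p (x - Pi.single i 1) - ch p (x + Pi.single i 1)) := by
      intro i
      simp only [mul_sub, Finset.sum_sub_distrib]
      have e1 : ∑ p : T d L, (((lz p)⁻¹ : ℝ) : ℂ) * (2 * ch p x) =
          2 * ∑ p : T d L, (((lz p)⁻¹ : ℝ) : ℂ) * ch p x := by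
        rw [Finset.mul_sum]
        exact Finset.sum_congr rfl fun p _ => by ring
      rw [e1]
      ring
    rw [Finset.sum_congr rfl fun i _ => h2 i, ← Finset.mul_sum, Finset.sum_comm]
    congr 1
    refine Finset.sum_congr rfl fun p _ => ?_
    rw [← Finset.mul_sum, lap_ch]
  have h3 : ∀ p : T d L, (((lz p)⁻¹ : ℝ) : ℂ) * ((lz p : ℂ) * ch p x) =
      ch x p - if p = 0 then 1 else 0 := by
    intro p
    by_cases hp : p = 0
    · subst hp
      rw [if_pos rfl, lz_zero, ch_zero]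
      simp
    · rw [if_neg hp, ← mul_assoc, ← Complex.ofReal_mul, inv_mul_cancel₀ (lz_pos p hp).ne', sub_zero,
        ch_comm]
      simp
  rw [h1, Finset.sum_congr rfl fun p _ => h3 p, Finset.sum_sub_distrib, ch_sum]
  simp only [Finset.sum_ite_eq', Finset.mem_univ, if_true]
  by_cases hx : x = 0
  · simp [hx]
    field_simp
  · simp [hx]

theorem Gz_eq (x : T d L) : ((Gz 0 x : ℝ) : ℂ) = GC x := by
  obtain ⟨g, hg⟩ : ∃ g : T d L → ℝ, g = fun x => (GC x).re := ⟨_, rfl⟩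
  have hgc : ∀ x, (g x : ℂ) = GC x := by
    intro x
    rw [hg]
    exact Complex.conj_eq_iff_re.1 (GC_conj x)
  have hs : ∑ x, g x = 0 := by
    have h1 : ((∑ x, g x : ℝ) : ℂ) = 0 := by
      rw [Complex.ofReal_sum, Finset.sum_congr rfl fun x _ => hgc x]
      unfold GC
      rw [← Finset.mul_sum, Finset.sum_comm]
      have h2 : ∀ p : T d L, ∑ x, (((lz p)⁻¹ : ℝ) : ℂ) * ch p x = 0 := by
        intro p
        rw [← Finset.mul_sum, ch_sum]
        by_cases hp : p = 0
        · rw [hp, lz_zero]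
          simp
        · rw [if_neg hp, mul_zero]
      rw [Finset.sum_congr rfl fun p _ => h2 p]
      simp
    exact_mod_cast h1
  have hal : ∀ x, Al g x = (if x = (0 : T d L) then (1 : ℝ) else 0) -
      av (fun x : T d L => if x = 0 then (1 : ℝ) else 0) := by
    intro x
    have e1 : av (fun x : T d L => if x = 0 then (1 : ℝ) else 0) = 1 / NS d L := by
      unfold av
      simp
    rw [e1]
    have h1 : ((Al g x : ℝ) : ℂ) = (((if x = 0 then 1 else 0) - 1 / NS d L : ℝ) : ℂ) := by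
      rw [← lap_GC]
      unfold Al dv gd
      rw [Complex.ofReal_sum]
      refine Finset.sum_congr rfl fun i _ => ?_
      rw [sub_add_cancel]
      push_cast
      rw [hgc, hgc, hgc]
      ring
    exact_mod_cast h1
  have h2 := Gr_unique _ g hs hal
  have h3 : Gz 0 x = g x := by
    have := congrFun h2 x
    rw [this]
    rfl
  rw [h3, hgc]

/-- **the sum of the cubes in Fourier variables** -/
theorem S3_eq : S3 d L = (NS d L)⁻¹ * ∑ p : T d L, ((NS d L)⁻¹ * ∑ q : T d L,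
    ((lz p)⁻¹ * (lz q)⁻¹ * (lz (p + q))⁻¹)) := by
  have hN : (NS d L : ℂ) ≠ 0 := by exact_mod_cast (NS_pos (d := d) (L := L)).ne'
  have h1 : ((S3 d L : ℝ) : ℂ) = ((NS d L : ℝ) : ℂ)⁻¹ * ∑ p : T d L, (((NS d L : ℝ) : ℂ)⁻¹ *
      ∑ q : T d L, ((((lz p)⁻¹ * (lz q)⁻¹ * (lz (p + q))⁻¹ : ℝ)) : ℂ)) := by
    unfold S3
    rw [Complex.ofReal_sum]
    have h2 : ∀ x : T d L, (((Gz 0 x : ℝ) ^ 3 : ℝ) : ℂ) = (((NS d L : ℝ) : ℂ)⁻¹) ^ 3 *
        ∑ p : T d L, ∑ q : T d L, ∑ r : T d L,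
          ((((lz p)⁻¹ * (lz q)⁻¹ * (lz r)⁻¹ : ℝ)) : ℂ) * ch (p + q + r) x := by
      intro x
      rw [Complex.ofReal_pow, Gz_eq]
      unfold GC
      rw [mul_pow]
      congr 1
      rw [pow_succ, sq, Finset.sum_mul_sum, Finset.sum_mul]
      refine Finset.sum_congr rfl fun p _ => ?_
      rw [Finset.sum_mul_sum]
      refine Finset.sum_congr rfl fun q _ => ?_
      refine Finset.sum_congr rfl fun r _ => ?_
      rw [ch_add_left, ch_add_left]
      push_cast
      ring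
    rw [Finset.sum_congr rfl fun x _ => h2 x, ← Finset.mul_sum, Finset.sum_comm]
    have h3 : ∀ p : T d L, ∑ x : T d L, ∑ q : T d L, ∑ r : T d L,
          ((((lz p)⁻¹ * (lz q)⁻¹ * (lz r)⁻¹ : ℝ)) : ℂ) * ch (p + q + r) x =
        ∑ q : T d L, (NS d L : ℂ) * ((((lz p)⁻¹ * (lz q)⁻¹ * (lz (p + q))⁻¹ : ℝ)) : ℂ) := by
      intro p
      rw [Finset.sum_comm]
      refine Finset.sum_congr rfl fun q _ => ?_
      rw [Finset.sum_comm]
      have h4 : ∀ r : T d L, ∑ x : T d L, ((((lz p)⁻¹ * (lz q)⁻¹ * (lz r)⁻¹ : ℝ)) : ℂ) *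
          ch (p + q + r) x = if r = -(p + q) then
            (NS d L : ℂ) * ((((lz p)⁻¹ * (lz q)⁻¹ * (lz r)⁻¹ : ℝ)) : ℂ) else 0 := by
        intro r
        rw [← Finset.mul_sum, ch_sum]
        by_cases hr : r = -(p + q)
        · rw [if_pos hr, if_pos (by rw [hr]; exact add_neg_cancel _), mul_comm]
        · rw [if_neg hr, if_neg (fun h => hr (eq_neg_of_add_eq_zero_right h)), mul_zero]
      rw [Finset.sum_congr rfl fun r _ => h4 r, Finset.sum_ite_eq', if_pos (Finset.mem_univ _),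
        lz_neg]
    rw [Finset.sum_congr rfl fun p _ => h3 p, Finset.mul_sum, Finset.mul_sum]
    refine Finset.sum_congr rfl fun p _ => ?_
    rw [← Finset.mul_sum]
    field_simp
  exact_mod_cast h1

end Pool.Agent.R493.MS
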