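import Pool.Agent.R493.MS.Fou

/-! Sums over the torus as integrals over the cube, and the limit of the sums of cubes. -/

set_option autoImplicit false
set_option linter.unusedSectionVars false

open scoped BigOperators Topology
open MeasureTheory Set Filter

namespace Pool.Agent.R493.MS

open Pool.Agent.H4R2.AE (T)
open Pool.Agent.Y661.EX
open Pool.Agent.Y661.ED (om om_cont om_nonneg om_le om_eq om_lower)

/-- the grid point below `x` -/
noncomputable def gp (L : ℕ) (x : ℝ) : ZMod L := ((⌊(L : ℝ) * x⌋ : ℤ) : ZMod L)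

theorem gp_meas (L : ℕ) (k : ZMod L) : MeasurableSet {x : ℝ | gp L x = k} := by
  have h1 : Measurable fun x : ℝ => ⌊(L : ℝ) * x⌋ := Int.measurable_floor.comp (measurable_const_mul _)
  exact h1 (MeasurableSet.of_discrete (s := {m : ℤ | (m : ZMod L) = k}))

theorem gp_real (L : ℕ) [NeZero L] (k : ZMod L) : U.real {x : ℝ | gp L x = k} = (L : ℝ)⁻¹ := by
  have hL : (0 : ℝ) < L := L_pos'
  have e0 : U = volume.restrict (Ico (0 : ℝ) 1) := by
    unfold U
    exact (Measure.restrict_congr_set Ico_ae_eq_Ioc).symm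
  rw [e0, Measure.real, Measure.restrict_apply (gp_meas L k)]
  have h1 : {x : ℝ | gp L x = k} ∩ Ico 0 1 = Ico ((k.val : ℝ) / L) (((k.val : ℝ) + 1) / L) := by
    ext x
    simp only [mem_inter_iff, mem_ofPred_eq, mem_Ico]
    constructor
    · rintro ⟨h, h0, h1⟩
      have hf0 : 0 ≤ ⌊(L : ℝ) * x⌋ := Int.floor_nonneg.2 (by positivity)
      have hf1 : ⌊(L : ℝ) * x⌋ < L := by
        rw [Int.floor_lt]
        push_cast
        nlinarith
      have hk : ((k.val : ℕ) : ℤ) = ⌊(L : ℝ) * x⌋ := by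
        rw [← h]
        unfold gp
        rw [ZMod.val_intCast]
        exact Int.emod_eq_of_lt hf0 hf1
      have hk' : (k.val : ℝ) = (⌊(L : ℝ) * x⌋ : ℝ) := by exact_mod_cast hk
      rw [hk']
      constructor
      · rw [div_le_iff₀ hL, mul_comm x]
        exact Int.floor_le _
      · rw [lt_div_iff₀ hL, mul_comm x]
        exact Int.lt_floor_add_one _
    · rintro ⟨h0, h1⟩
      rw [div_le_iff₀ hL] at h0
      rw [lt_div_iff₀ hL] at h1
      have hk2 : (k.val : ℝ) + 1 ≤ L := by exact_mod_cast ZMod.val_lt k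
      have hf : ⌊(L : ℝ) * x⌋ = (k.val : ℤ) := by
        rw [Int.floor_eq_iff]
        push_cast
        constructor <;> linarith
      refine ⟨?_, ?_, ?_⟩
      · unfold gp
        rw [hf]
        simp
      · have : (0 : ℝ) ≤ k.val := Nat.cast_nonneg _
        by_contra hcon
        push Not at hcon
        nlinarith
      · by_contra hcon
        push Not at hcon
        nlinarith
  rw [h1, Real.volume_Ico]
  have h2 : ((k.val : ℝ) + 1) / L - (k.val : ℝ) / L = (L : ℝ)⁻¹ := by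
    field_simp
    ring
  rw [h2, ENNReal.toReal_ofReal (by positivity)]

variable {d : ℕ}

/-- the grid point below a vector -/
noncomputable def gv (L : ℕ) (x : Fin d → ℝ) : Fin d → ZMod L := fun i => gp L (x i)

/-- the indicator of a cell -/
noncomputable def ic (L : ℕ) (k : ZMod L) (x : ℝ) : ℝ := {x : ℝ | gp L x = k}.indicator 1 x

theorem ic_int (L : ℕ) (k : ZMod L) : Integrable (ic L k) U :=
  (integrable_const (1 : ℝ)).indicator (gp_meas L k)

theorem ic_integral (L : ℕ) [NeZero L] (k : ZMod L) : ∫ x, ic L k x ∂U = (L : ℝ)⁻¹ := by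
  rw [← gp_real L k]
  exact integral_indicator_one (gp_meas L k)

/-- sums over the torus are integrals over the cube -/
theorem sum_int (L : ℕ) [NeZero L] (f : T d L → ℝ) :
    ∫ x, f (gv L x) ∂(Un d) = (NS d L)⁻¹ * ∑ p, f p := by
  have h1 : ∀ x : Fin d → ℝ, f (gv L x) = ∑ p : T d L, f p * ∏ i, ic L (p i) (x i) := by
    intro x
    rw [Finset.sum_eq_single (gv L x)]
    · rw [Finset.prod_eq_one, mul_one]
      intro i _
      unfold ic
      rw [indicator_of_mem (show x i ∈ {t : ℝ | gp L t = gv L x i} from rfl)]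
      rfl
    · intro p _ hp
      obtain ⟨i, hi⟩ : ∃ i, gv L x i ≠ p i := by
        by_contra hcon
        push Not at hcon
        exact hp (funext fun i => (hcon i).symm)
      rw [Finset.prod_eq_zero (Finset.mem_univ i), mul_zero]
      unfold ic
      exact indicator_of_notMem (show x i ∉ {t : ℝ | gp L t = p i} from hi) _
    · intro h
      exact absurd (Finset.mem_univ _) h
  simp only [h1]
  have h2 : ∀ p : T d L, Integrable (fun x : Fin d → ℝ => ∏ i, ic L (p i) (x i)) (Un d) := fun p =>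
    Integrable.fintype_prod (μ := fun _ : Fin d => U) (f := fun i t => ic L (p i) t)
      (fun i => ic_int L (p i))
  rw [integral_finsetSum _ fun p _ => (h2 p).const_mul _, Finset.mul_sum]
  refine Finset.sum_congr rfl fun p _ => ?_
  rw [integral_const_mul]
  have h3 : ∫ x : Fin d → ℝ, ∏ i, ic L (p i) (x i) ∂(Un d) = ∏ i, ∫ t, ic L (p i) t ∂U :=
    integral_fintype_prod_eq_prod (μ := fun _ : Fin d => U) (fun i t => ic L (p i) t)
  rw [h3]
  simp only [ic_integral]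
  rw [Finset.prod_const, Finset.card_univ, Fintype.card_fin, NS_eq, inv_pow]
  ring

theorem om_int (L : ℕ) [NeZero L] (m : ℤ) :
    om ((((m : ℤ) : ZMod L).val : ℝ) / L) = om ((m : ℝ) / L) := by
  have hL : (0 : ℝ) < L := L_pos'
  have h1 : ((((m : ℤ) : ZMod L).val : ℕ) : ℤ) = m % L := ZMod.val_intCast m
  have h2 : ((((m : ℤ) : ZMod L).val : ℝ)) = ((m % L : ℤ) : ℝ) := by exact_mod_cast h1
  have h3 : (m : ℝ) = (L : ℝ) * ((m / L : ℤ) : ℝ) + ((m % L : ℤ) : ℝ) := by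
    exact_mod_cast (Int.mul_ediv_add_emod m L).symm
  rw [h2]
  have h4 : (m : ℝ) / L = ((m % L : ℤ) : ℝ) / L + ((m / L : ℤ) : ℝ) * 1 := by
    rw [h3]
    field_simp
    ring
  rw [h4]
  exact (om_per.int_mul (m / L) _).symm

/-- the symbol at an integer vector -/
theorem lz_int (L : ℕ) [NeZero L] (m : Fin d → ℤ) :
    lz (fun i => ((m i : ℤ) : ZMod L)) = lam (fun i => (m i : ℝ) / L) := by
  unfold lz lam
  exact Finset.sum_congr rfl fun i _ => om_int L (m i)

theorem lz_gv (L : ℕ) [NeZero L] (x : Fin d → ℝ) :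
    lz (gv L x) = lam (fun i => (⌊(L : ℝ) * x i⌋ : ℝ) / L) :=
  lz_int L fun i => ⌊(L : ℝ) * x i⌋

theorem lz_gv_add (L : ℕ) [NeZero L] (x y : Fin d → ℝ) :
    lz (gv L x + gv L y) = lam (fun i => ((⌊(L : ℝ) * x i⌋ : ℝ) + (⌊(L : ℝ) * y i⌋ : ℝ)) / L) := by
  have h := lz_int L fun i => ⌊(L : ℝ) * x i⌋ + ⌊(L : ℝ) * y i⌋
  push_cast at h
  exact h

theorem om_quad (z w : ℝ) : om z ≤ 2 * om w + 8 * Real.pi ^ 2 * (z - w) ^ 2 := by
  rw [om_eq, om_eq]
  obtain ⟨a, ha⟩ : ∃ a, a = Real.pi * w := ⟨_, rfl⟩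
  obtain ⟨b, hb⟩ : ∃ b, b = Real.pi * (z - w) := ⟨_, rfl⟩
  have h1 : Real.pi * z = a + b := by rw [ha, hb]; ring
  rw [h1, ← ha, Real.sin_add]
  have h2 : 8 * Real.pi ^ 2 * (z - w) ^ 2 = 8 * b ^ 2 := by rw [hb]; ring
  rw [h2]
  have h3 : Real.sin b ^ 2 ≤ b ^ 2 := Real.sin_sq_le_sq
  have h4 := Real.sin_sq_add_cos_sq a
  have h5 := Real.sin_sq_add_cos_sq b
  have h6 : (Real.sin a * Real.cos b + Real.cos a * Real.sin b) ^ 2 ≤
      2 * (Real.sin a * Real.cos b) ^ 2 + 2 * (Real.cos a * Real.sin b) ^ 2 := by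
    nlinarith [sq_nonneg (Real.sin a * Real.cos b - Real.cos a * Real.sin b)]
  have h7 : (Real.sin a * Real.cos b) ^ 2 ≤ Real.sin a ^ 2 := by
    rw [mul_pow]
    have : Real.cos b ^ 2 ≤ 1 := by nlinarith [sq_nonneg (Real.sin b)]
    nlinarith [sq_nonneg (Real.sin a)]
  have h8 : (Real.cos a * Real.sin b) ^ 2 ≤ Real.sin b ^ 2 := by
    rw [mul_pow]
    have : Real.cos a ^ 2 ≤ 1 := by nlinarith [sq_nonneg (Real.sin a)]
    nlinarith [sq_nonneg (Real.sin b)]
  linarith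

/-- the constant of the comparison -/
noncomputable def cK (d : ℕ) : ℝ := 2 + 2 * Real.pi ^ 2 * d

theorem cK_pos : 0 < cK d := by
  unfold cK
  have := Real.pi_pos
  positivity

theorem compare (L : ℕ) [NeZero L] (z : Fin d → ℝ) (m : Fin d → ℤ)
    (h : ∀ i, |z i - (m i : ℝ) / L| ≤ 2 / L) (hz : 0 < lam z) :
    (lz (fun i => ((m i : ℤ) : ZMod L)))⁻¹ ≤ cK d * (lam z)⁻¹ := by
  have hL : (0 : ℝ) < L := L_pos'
  obtain ⟨p, hp⟩ : ∃ p : T d L, p = fun i => ((m i : ℤ) : ZMod L) := ⟨_, rfl⟩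
  rw [← hp]
  by_cases h0 : p = 0
  · rw [h0, lz_zero, inv_zero]
    have := cK_pos (d := d)
    positivity
  · have h1 := lz_low p h0
    have h2 := lz_pos p h0
    have h3 : lz p = lam (fun i => (m i : ℝ) / L) := by
      rw [hp]
      exact lz_int L m
    have h4 : lam z ≤ 2 * lz p + 32 * Real.pi ^ 2 * d / (L : ℝ) ^ 2 := by
      rw [h3]
      unfold lam
      have h5 : ∀ i, om (z i) ≤ 2 * om ((m i : ℝ) / L) + 32 * Real.pi ^ 2 / (L : ℝ) ^ 2 := by
        intro i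
        refine (om_quad (z i) ((m i : ℝ) / L)).trans ?_
        have h6 : (z i - (m i : ℝ) / L) ^ 2 ≤ (2 / (L : ℝ)) ^ 2 := by
          rw [← sq_abs]
          exact pow_le_pow_left₀ (abs_nonneg _) (h i) 2
        have h7 : 8 * Real.pi ^ 2 * (z i - (m i : ℝ) / L) ^ 2 ≤
            8 * Real.pi ^ 2 * (2 / (L : ℝ)) ^ 2 := by gcongr
        have h8 : 8 * Real.pi ^ 2 * (2 / (L : ℝ)) ^ 2 = 32 * Real.pi ^ 2 / (L : ℝ) ^ 2 := by
          field_simp
          ring
        linarith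
      refine (Finset.sum_le_sum fun i _ => h5 i).trans (le_of_eq ?_)
      rw [Finset.sum_add_distrib, ← Finset.mul_sum, Finset.sum_const, Finset.card_univ,
        Fintype.card_fin, nsmul_eq_mul]
      ring
    have h5 : lam z ≤ cK d * lz p := by
      have h6 : 32 * Real.pi ^ 2 * d / (L : ℝ) ^ 2 ≤ 2 * Real.pi ^ 2 * d * lz p := by
        calc 32 * Real.pi ^ 2 * d / (L : ℝ) ^ 2 = 2 * Real.pi ^ 2 * d * (16 / (L : ℝ) ^ 2) := by ring
          _ ≤ _ := by gcongr
      unfold cK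
      linarith
    rw [inv_le_comm₀ h2 (by have := cK_pos (d := d); positivity), mul_inv, inv_inv,
      inv_mul_le_iff₀ cK_pos]
    exact h5

theorem floor_close (L : ℕ) [NeZero L] (x : ℝ) : |x - (⌊(L : ℝ) * x⌋ : ℝ) / L| ≤ 1 / L := by
  have hL : (0 : ℝ) < L := L_pos'
  have h1 := Int.floor_le ((L : ℝ) * x)
  have h2 := Int.lt_floor_add_one ((L : ℝ) * x)
  have e : x - (⌊(L : ℝ) * x⌋ : ℝ) / L = ((L : ℝ) * x - ⌊(L : ℝ) * x⌋) / L := by
    field_simp
  rw [e, abs_div, abs_of_pos hL, abs_of_nonneg (by linarith)]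
  apply div_le_div_of_nonneg_right _ hL.le
  linarith

/-- the integrand on the grid -/
noncomputable def FL (L : ℕ) [NeZero L] (x y : Fin d → ℝ) : ℝ :=
  (lz (gv L x))⁻¹ * (lz (gv L y))⁻¹ * (lz (gv L x + gv L y))⁻¹

theorem FL_nonneg (L : ℕ) [NeZero L] (x y : Fin d → ℝ) : 0 ≤ FL L x y := by
  unfold FL
  have := lz_nonneg (gv L x)
  have := lz_nonneg (gv L y)
  have := lz_nonneg (gv L x + gv L y)
  positivity

theorem FL_meas (L : ℕ) [NeZero L] :
    Measurable fun z : (Fin d → ℝ) × (Fin d → ℝ) => FL L z.1 z.2 := by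
  unfold FL
  simp only [lz_gv, lz_gv_add]
  have h1 := (lam_cont (d := d)).measurable
  have h2 : Measurable fun t : ℝ => (⌊(L : ℝ) * t⌋ : ℝ) :=
    (measurable_from_top (f := fun n : ℤ => (n : ℝ))).comp
      (Int.measurable_floor.comp (measurable_const_mul _))
  have a1 : Measurable fun z : (Fin d → ℝ) × (Fin d → ℝ) =>
      (fun i => (⌊(L : ℝ) * z.1 i⌋ : ℝ) / L : Fin d → ℝ) := by
    refine measurable_pi_lambda _ fun i => ?_
    exact (h2.comp (by fun_prop : Measurable fun z : (Fin d → ℝ) × (Fin d → ℝ) => z.1 i)).div_const _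
  have a2 : Measurable fun z : (Fin d → ℝ) × (Fin d → ℝ) =>
      (fun i => (⌊(L : ℝ) * z.2 i⌋ : ℝ) / L : Fin d → ℝ) := by
    refine measurable_pi_lambda _ fun i => ?_
    exact (h2.comp (by fun_prop : Measurable fun z : (Fin d → ℝ) × (Fin d → ℝ) => z.2 i)).div_const _
  have a3 : Measurable fun z : (Fin d → ℝ) × (Fin d → ℝ) =>
      (fun i => ((⌊(L : ℝ) * z.1 i⌋ : ℝ) + (⌊(L : ℝ) * z.2 i⌋ : ℝ)) / L : Fin d → ℝ) := by
    refine measurable_pi_lambda _ fun i => ?_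
    exact ((h2.comp (by fun_prop : Measurable fun z : (Fin d → ℝ) × (Fin d → ℝ) => z.1 i)).add
      (h2.comp (by fun_prop : Measurable fun z : (Fin d → ℝ) × (Fin d → ℝ) => z.2 i))).div_const _
  exact ((h1.comp a1).inv.mul (h1.comp a2).inv).mul (h1.comp a3).inv

theorem inv_lz_le (L : ℕ) [NeZero L] (p : T d L) : (lz p)⁻¹ ≤ (L : ℝ) ^ 2 := by
  have hL : (0 : ℝ) < L := L_pos'
  by_cases hp : p = 0
  · rw [hp, lz_zero, inv_zero]
    positivity
  · have h1 := lz_low p hp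
    have h2 : (lz p)⁻¹ ≤ (16 / (L : ℝ) ^ 2)⁻¹ := inv_anti₀ (by positivity) h1
    refine h2.trans ?_
    rw [inv_div]
    have : 0 < (L : ℝ) ^ 2 := by positivity
    linarith

theorem FL_int (L : ℕ) [NeZero L] : Integrable
    (fun z : (Fin d → ℝ) × (Fin d → ℝ) => FL L z.1 z.2) ((Un d).prod (Un d)) := by
  refine Integrable.of_bound (FL_meas L).aestronglyMeasurable
    ((L : ℝ) ^ 2 * (L : ℝ) ^ 2 * (L : ℝ) ^ 2) (Eventually.of_forall fun z => ?_)
  rw [Real.norm_eq_abs, abs_of_nonneg (FL_nonneg L _ _)]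
  unfold FL
  have p1 := inv_nonneg.2 (lz_nonneg (gv L z.1))
  have p2 := inv_nonneg.2 (lz_nonneg (gv L z.2))
  have p3 := inv_nonneg.2 (lz_nonneg (gv L z.1 + gv L z.2))
  have q1 := inv_lz_le L (gv L z.1)
  have q2 := inv_lz_le L (gv L z.2)
  have q3 := inv_lz_le L (gv L z.1 + gv L z.2)
  gcongr

theorem S3_int (L : ℕ) [NeZero L] :
    S3 d L = ∫ z : (Fin d → ℝ) × (Fin d → ℝ), FL L z.1 z.2 ∂((Un d).prod (Un d)) := by
  rw [integral_prod _ (FL_int L), S3_eq]
  have h1 : ∀ x : Fin d → ℝ, ∫ y, FL L x y ∂(Un d) =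
      (NS d L)⁻¹ * ∑ q : T d L, ((lz (gv L x))⁻¹ * (lz q)⁻¹ * (lz (gv L x + q))⁻¹) := fun x =>
    sum_int L fun q : T d L => (lz (gv L x))⁻¹ * (lz q)⁻¹ * (lz (gv L x + q))⁻¹
  simp only [h1]
  exact (sum_int L fun p : T d L => (NS d L)⁻¹ * ∑ q : T d L,
    ((lz p)⁻¹ * (lz q)⁻¹ * (lz (p + q))⁻¹)).symm

theorem FL_le (L : ℕ) [NeZero L] (hd : 0 < d) (x y : Fin d → ℝ) (h : Gen x y) :
    FL L x y ≤ cK d ^ 3 * F0 x y := by
  have hL : (0 : ℝ) < L := L_pos'
  have l1 := lam_pos hd x h.1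
  have l2 := lam_pos hd y h.2.1
  have l3 := lam_pos hd (x + y) h.2.2
  have hc := cK_pos (d := d)
  have h12 : (1 : ℝ) / L ≤ 2 / L := by gcongr; norm_num
  have c1 := compare L x (fun i => ⌊(L : ℝ) * x i⌋) (fun i => (floor_close L (x i)).trans h12) l1
  have c2 := compare L y (fun i => ⌊(L : ℝ) * y i⌋) (fun i => (floor_close L (y i)).trans h12) l2
  have c3 := compare L (x + y) (fun i => ⌊(L : ℝ) * x i⌋ + ⌊(L : ℝ) * y i⌋) (fun i => by
    have a1 := floor_close L (x i)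
    have a2 := floor_close L (y i)
    have e : (x + y) i - ((⌊(L : ℝ) * x i⌋ + ⌊(L : ℝ) * y i⌋ : ℤ) : ℝ) / L =
        (x i - (⌊(L : ℝ) * x i⌋ : ℝ) / L) + (y i - (⌊(L : ℝ) * y i⌋ : ℝ) / L) := by
      rw [Pi.add_apply]
      push_cast
      ring
    rw [e]
    refine (abs_add_le _ _).trans ?_
    have : (2 : ℝ) / L = 1 / L + 1 / L := by ring
    linarith) l3
  have e3 : (fun i => ((⌊(L : ℝ) * x i⌋ + ⌊(L : ℝ) * y i⌋ : ℤ) : ZMod L)) = gv L x + gv L y := by
    funext i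
    simp only [Pi.add_apply, gv, gp]
    push_cast
    rfl
  rw [e3] at c3
  have p1 := inv_nonneg.2 (lz_nonneg (gv L x))
  have p2 := inv_nonneg.2 (lz_nonneg (gv L y))
  have p3 := inv_nonneg.2 (lz_nonneg (gv L x + gv L y))
  have q1 := inv_nonneg.2 l1.le
  have q2 := inv_nonneg.2 l2.le
  have q3 := inv_nonneg.2 l3.le
  unfold FL F0
  calc (lz (gv L x))⁻¹ * (lz (gv L y))⁻¹ * (lz (gv L x + gv L y))⁻¹ ≤
        (cK d * (lam x)⁻¹) * (cK d * (lam y)⁻¹) * (cK d * (lam (x + y))⁻¹) := by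
        refine mul_le_mul (mul_le_mul c1 c2 p2 (by positivity)) c3 p3 (by positivity)
    _ = _ := by ring

theorem lim_floor (x : ℝ) : Tendsto (fun n : ℕ => (⌊((n + 1 : ℕ) : ℝ) * x⌋ : ℝ) / ((n + 1 : ℕ) : ℝ))
    atTop (𝓝 x) := by
  rw [tendsto_iff_dist_tendsto_zero]
  have h1 : Tendsto (fun n : ℕ => 1 / (((n + 1 : ℕ)) : ℝ)) atTop (𝓝 0) := by
    have := tendsto_one_div_add_atTop_nhds_zero_nat (𝕜 := ℝ)
    refine this.congr fun n => ?_
    push_cast
    rfl
  refine squeeze_zero (fun _ => dist_nonneg) (fun n => ?_) h1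
  rw [dist_comm, Real.dist_eq]
  exact floor_close (n + 1) x

theorem FL_lim (hd : 0 < d) (x y : Fin d → ℝ) (h : Gen x y) :
    Tendsto (fun n : ℕ => FL (n + 1) x y) atTop (𝓝 (F0 x y)) := by
  have l1 := lam_pos hd x h.1
  have l2 := lam_pos hd y h.2.1
  have l3 := lam_pos hd (x + y) h.2.2
  unfold FL F0
  simp only [lz_gv, lz_gv_add]
  have a1 : Tendsto (fun n : ℕ => lam (fun i => (⌊((n + 1 : ℕ) : ℝ) * x i⌋ : ℝ) /
      ((n + 1 : ℕ) : ℝ))) atTop (𝓝 (lam x)) := by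
    refine (lam_cont.tendsto x).comp ?_
    rw [tendsto_pi_nhds]
    exact fun i => lim_floor (x i)
  have a2 : Tendsto (fun n : ℕ => lam (fun i => (⌊((n + 1 : ℕ) : ℝ) * y i⌋ : ℝ) /
      ((n + 1 : ℕ) : ℝ))) atTop (𝓝 (lam y)) := by
    refine (lam_cont.tendsto y).comp ?_
    rw [tendsto_pi_nhds]
    exact fun i => lim_floor (y i)
  have a3 : Tendsto (fun n : ℕ => lam (fun i => ((⌊((n + 1 : ℕ) : ℝ) * x i⌋ : ℝ) +
      (⌊((n + 1 : ℕ) : ℝ) * y i⌋ : ℝ)) / ((n + 1 : ℕ) : ℝ))) atTop (𝓝 (lam (x + y))) := by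
    refine (lam_cont.tendsto (x + y)).comp ?_
    rw [tendsto_pi_nhds]
    intro i
    have := (lim_floor (x i)).add (lim_floor (y i))
    refine this.congr fun n => ?_
    ring
  exact ((a1.inv₀ l1.ne').mul (a2.inv₀ l2.ne')).mul (a3.inv₀ l3.ne')

/-- the sunset integral -/
noncomputable def Sun (d : ℕ) : ℝ :=
  ∫ z : (Fin d → ℝ) × (Fin d → ℝ), F0 z.1 z.2 ∂((Un d).prod (Un d))

/-- **the limit of the sums of cubes** -/
theorem S3_lim (hd : 4 ≤ d) : Tendsto (fun n : ℕ => S3 d (n + 1)) atTop (𝓝 (Sun d)) := by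
  simp only [S3_int]
  refine tendsto_integral_of_dominated_convergence (fun z => cK d ^ 3 * F0 z.1 z.2)
    (fun n => (FL_meas (n + 1)).aestronglyMeasurable) ((F0_int hd).const_mul _) ?_ ?_
  · intro n
    filter_upwards [gen_ae (d := d)] with z hz
    rw [Real.norm_eq_abs, abs_of_nonneg (FL_nonneg _ _ _)]
    exact FL_le (n + 1) (by omega) _ _ hz
  · filter_upwards [gen_ae (d := d)] with z hz
    exact FL_lim (by omega) _ _ hz

end Pool.Agent.R493.MS
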