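import Pool.Agent.R493.MS.Grid
import Pool.Agent.Y661.EX.GauA

/-! The fourth-order coefficient of the effective edge. -/

set_option autoImplicit false
set_option linter.unusedSectionVars false

open scoped BigOperators ENNReal Topology
open MeasureTheory ProbabilityTheory Filter

namespace Pool.Agent.R493.MS

open Pool.Agent.H4R2.AE (T)
open Pool.Agent.Y661.EX

theorem tau_le (d L : ℕ) [NeZero L] :
    |tau d L| ≤ (d : ℝ) / 2 * (L : ℝ) ^ 2 * ∑ y : T d L, Gz (0 : T d L) y ^ 2 := by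
  obtain ⟨S, hS⟩ : ∃ S, S = ∑ y : T d L, Gz (0 : T d L) y ^ 2 := ⟨_, rfl⟩
  have hS0 : 0 ≤ S := by rw [hS]; exact Finset.sum_nonneg fun _ _ => sq_nonneg _
  have h1 : ∀ y : T d L, Kz (0 : T d L) y = Gr (Gz (0 : T d L)) y := by
    intro y
    unfold Kz
    rw [Gr_eq]
    exact Finset.sum_congr rfl fun a _ => mul_comm _ _
  have h2 : tau d L ^ 2 ≤ S * (((d : ℝ) / 2 * (L : ℝ) ^ 2) ^ 2 * S) := by
    unfold tau
    simp only [h1]
    refine (Finset.sum_mul_sq_le_sq_mul_sq _ _ _).trans ?_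
    rw [← hS]
    gcongr
    rw [hS]
    exact Gr_norm _
  rw [← hS]
  apply abs_le_of_sq_le_sq _ (by positivity)
  calc tau d L ^ 2 ≤ S * (((d : ℝ) / 2 * (L : ℝ) ^ 2) ^ 2 * S) := h2
    _ = _ := by ring

theorem tau_lim (d : ℕ) (hd : 4 ≤ d) :
    Tendsto (fun n : ℕ => 3 * tau d (n + 1) / NS d (n + 1)) atTop (𝓝 0) := by
  obtain ⟨C, hC, h⟩ := Gz_pow d hd 1 one_pos
  have h1 : ∀ n : ℕ, |3 * tau d (n + 1) / NS d (n + 1)| ≤
      3 * (d : ℝ) * C * (1 / ((n : ℝ) + 1)) := by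
    intro n
    have hL : (0 : ℝ) < ((n + 1 : ℕ) : ℝ) := by positivity
    have hL1 : (1 : ℝ) ≤ ((n + 1 : ℕ) : ℝ) := by
      push_cast
      have : (0 : ℝ) ≤ n := Nat.cast_nonneg n
      linarith
    have hN := NS_pos (d := d) (L := n + 1)
    have h2 := tau_le d (n + 1)
    have h3 := h (n + 1) (0 : T d (n + 1))
    rw [Real.rpow_one] at h3
    have h4 : (((n + 1 : ℕ) : ℝ)) ^ 4 ≤ NS d (n + 1) := by
      rw [NS_eq]
      exact pow_le_pow_right₀ hL1 hd
    have h5 : |tau d (n + 1)| ≤ (d : ℝ) / 2 * C * ((n + 1 : ℕ) : ℝ) ^ 3 := by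
      refine h2.trans ?_
      calc (d : ℝ) / 2 * ((n + 1 : ℕ) : ℝ) ^ 2 * ∑ y : T d (n + 1), Gz (0 : T d (n + 1)) y ^ 2 ≤
            (d : ℝ) / 2 * ((n + 1 : ℕ) : ℝ) ^ 2 * (C * ((n + 1 : ℕ) : ℝ)) := by gcongr
        _ = _ := by ring
    rw [abs_div, abs_mul, abs_of_pos hN, abs_of_pos (by norm_num : (0 : ℝ) < 3),
      div_le_iff₀ hN]
    have e1 : (1 : ℝ) / ((n : ℝ) + 1) = 1 / ((n + 1 : ℕ) : ℝ) := by push_cast; rfl
    rw [e1]
    obtain ⟨l, hl⟩ : ∃ l : ℝ, l = ((n + 1 : ℕ) : ℝ) := ⟨_, rfl⟩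
    rw [← hl] at hL hL1 h4 h5 ⊢
    have hC0 : 0 ≤ C := by linarith
    calc 3 * |tau d (n + 1)| ≤ 3 * ((d : ℝ) / 2 * C * l ^ 3) := by gcongr
      _ ≤ 3 * (d : ℝ) * C * l ^ 3 := by
          have : 0 ≤ (d : ℝ) * C * l ^ 3 := by positivity
          linarith
      _ = 3 * (d : ℝ) * C * (1 / l) * l ^ 4 := by
          field_simp
      _ ≤ 3 * (d : ℝ) * C * (1 / l) * NS d (n + 1) := by gcongr
  have h2 : Tendsto (fun n : ℕ => 3 * (d : ℝ) * C * (1 / ((n : ℝ) + 1))) atTop (𝓝 0) := by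
    have := (tendsto_one_div_add_atTop_nhds_zero_nat (𝕜 := ℝ)).const_mul (3 * (d : ℝ) * C)
    rwa [mul_zero] at this
  exact squeeze_zero_norm h1 h2

theorem std_gauss : Std (gaussianReal 0 1) := by
  refine ⟨integral_id_gaussianReal, ?_, ?_⟩
  · have h3 := variance_fun_id_gaussianReal (μ := 0) (v := 1)
    rw [variance_eq_integral measurable_id'.aemeasurable] at h3
    simpa [integral_id_gaussianReal] using h3
  · rw [integral_gaussianReal_eq_integral_smul one_ne_zero]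
    have h1 : (fun x : ℝ => gaussianPDFReal 0 1 x • x ^ 4) =
        fun x : ℝ => (fun y : ℝ => (√(2 * Real.pi))⁻¹ * (y ^ (4 : ℝ) *
          Real.exp (-(1 / 2) * y ^ (2 : ℝ)))) |x| := by
      ext x
      simp only [gaussianPDFReal, smul_eq_mul, sub_zero, NNReal.coe_one, mul_one]
      have e1 : |x| ^ (4 : ℝ) = x ^ 4 := by
        rw [show (4 : ℝ) = ((4 : ℕ) : ℝ) by norm_num, Real.rpow_natCast]
        exact (Even.pow_abs (by decide) x)
      have e2 : |x| ^ (2 : ℝ) = x ^ 2 := by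
        rw [show (2 : ℝ) = ((2 : ℕ) : ℝ) by norm_num, Real.rpow_natCast]
        exact (Even.pow_abs (by decide) x)
      rw [e1, e2, show -x ^ 2 / 2 = -(1 / 2) * x ^ 2 by ring]
      ring
    rw [h1, integral_comp_abs (f := fun y : ℝ => (√(2 * Real.pi))⁻¹ * (y ^ (4 : ℝ) *
      Real.exp (-(1 / 2) * y ^ (2 : ℝ)))), integral_const_mul,
      integral_rpow_mul_exp_neg_mul_rpow (by norm_num) (by norm_num) (by norm_num)]
    have h2 : Real.Gamma ((4 + 1) / 2) = 3 / 4 * √Real.pi := by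
      have := Real.Gamma_nat_add_half 2
      rw [show (((2 : ℕ) : ℝ) + 1 / 2) = (4 + 1) / 2 by norm_num] at this
      rw [this]
      norm_num [Nat.doubleFactorial]
      ring
    have h3 : (1 / 2 : ℝ) ^ (-(4 + 1) / 2 : ℝ) = 4 * √2 := by
      rw [show (1 / 2 : ℝ) = (2 : ℝ)⁻¹ by norm_num, Real.inv_rpow (by norm_num),
        ← Real.rpow_neg (by norm_num),
        show (-(-(4 + 1) / 2) : ℝ) = ((2 : ℕ) : ℝ) + 1 / 2 by norm_num,
        Real.rpow_add (by norm_num), Real.rpow_natCast, ← Real.sqrt_eq_rpow]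
      norm_num
    rw [h2, h3, Real.sqrt_mul (by norm_num)]
    have h4 : √2 ≠ 0 := by positivity
    have h5 : √Real.pi ≠ 0 := by
      have := Real.pi_pos
      positivity
    field_simp

theorem gauss_pow (n : ℕ) : Integrable (fun t : ℝ => t ^ n) (gaussianReal 0 1) := by
  refine (gauss_mom n).mono (by fun_prop) (Eventually.of_forall fun t => ?_)
  simp

/-- **the fourth coefficient** -/
theorem bco_four (d : ℕ) (hd : 4 ≤ d) : bco (gaussianReal 0 1) d 4 = -Sun d := by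
  obtain ⟨K, hK, hE⟩ := heG d hd
  have h1 := lim_all (gaussianReal 0 1) gauss_mom d hd 4 K hK (hE 4) 3 (by omega)
  have h2 : ∀ L : ℕ, aL (gaussianReal 0 1) d (L + 1) (3 + 1) =
      -S3 d (L + 1) + 3 * tau d (L + 1) / NS d (L + 1) := fun L =>
    mean_four (gaussianReal 0 1) std_gauss gauss_pow
  simp only [h2] at h1
  have h3 := (S3_lim hd).neg.add (tau_lim d hd)
  rw [add_zero] at h3
  exact tendsto_nhds_unique h1 h3

theorem ca_two (d : ℕ) (hd : 4 ≤ d) : ca d 2 = Sun d := by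
  unfold ca
  rw [if_neg two_ne_zero]
  have := bco_four d hd
  rw [show 2 * 2 = 4 from rfl, this, neg_neg]

end Pool.Agent.R493.MS
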